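import Pool.Agent.Helper80.DY.E0G

/-!
# Block [E0] of MP_d13a5e_al: `ρ d1 ≥ φ d1` is impossible if `φ d1 ≥ 0 > φ d2`
-/

set_option autoImplicit false

namespace Pool.Agent.Helper80.DY

open Pool.Agent.Helper62.DY
open _root_.DY (Z1 C01 Tri rf sq Str Loc Crd Canon E0Stat)

variable {E : Type*} [AddCommGroup E] [Module ℝ E]
variable {Ψ : Set E} {B : E →ₗ[ℝ] E →ₗ[ℝ] ℝ} {ρ φ : E →ₗ[ℝ] ℝ} {t d1 d2 x x' : E}

/-- no root in the plane of `t` and `d2` vanishes at `F` -/
theorem no_flat (L : Loc Ψ B ρ φ t d1 d2 x x') {g x1 x2 g' y1 y2 : ℝ}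
    (e : x = g • t + x1 • d1 + x2 • d2) (e' : x' = g' • t + y1 • d1 + y2 • d2) (h1 : 1 ≤ x1)
    (h1' : 1 ≤ y1) {α β : ℝ} (hm : α • t + (0 : ℝ) • d1 + β • d2 ∈ Ψ)
    (h0 : α + β * φ d2 = 0) : False := by
  have hφ : φ (α • t + (0 : ℝ) • d1 + β • d2) = 0 := by
    rw [L.val_φ]
    linarith only [h0]
  obtain ⟨a, b, h0'⟩ := L.sp _ hm
  have h : α • t + (0 : ℝ) • d1 + β • d2 = a • x + b • x' := by
    rw [hφ] at h0'
    rw [h0']
    module
  have h2 : α • t + (0 : ℝ) • d1 + β • d2 =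
      (a * g + b * g') • t + (a * x1 + b * y1) • d1 + (a * x2 + b * y2) • d2 := by
    rw [h, e, e']
    module
  obtain ⟨-, h3, -⟩ := L.tri.coordW h2
  rcases L.cxx _ hm a b h with (⟨k1, k2⟩ | ⟨k1, k2⟩ | ⟨k1, k2⟩) | (⟨k1, k2⟩ | ⟨k1, k2⟩ | ⟨k1, k2⟩)
  · rw [k1, k2] at h3
    linarith only [h1', h3]
  · rw [k1, k2] at h3
    linarith only [h1, h3]
  · nlinarith only [h1, h1', h3, k1, k2]
  · have k3 : a = 0 := by linarith only [k1]
    have k4 : b = -1 := by linarith only [k2]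
    rw [k3, k4] at h3
    linarith only [h1', h3]
  · have k3 : a = -1 := by linarith only [k1]
    have k4 : b = 0 := by linarith only [k2]
    rw [k3, k4] at h3
    linarith only [h1, h3]
  · nlinarith only [h1, h1', h3, k1, k2]

/-- the equality case for the label 2 -/
theorem label_two (L : Loc Ψ B ρ φ t d1 d2 x x') {b1 bO x1 x2 : ℝ} (hb1 : b1 = -B t d1)
    (hb2 : B t d2 = 0) (hbO : bO = -B d1 d2)
    (e : x = (1 : ℝ) • t + x1 • d1 + x2 • d2) (hx1 : 1 ≤ x1) (hx2 : 1 ≤ x2)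
    (hN : x1 ^ 2 + x2 ^ 2 - 2 * b1 * x1 - 2 * bO * x1 * x2 = 0)
    (hr2 : 0 ≤ 2 * bO * x1 - x2) (hobt : 1 ≤ b1 * x1) (hac : x1 ≤ b1 + bO * x2)
    (f1 : φ d1 = 0) (f2 : φ d2 * x2 = -1) (r1 : ρ d1 = 0) (r2 : ρ d2 = 0) : False := by
  have hR := rt_of_tri L.tri
  have hbO0 : 0 < bO := by
    by_contra h
    have := mul_nonpos_of_nonpos_of_nonneg (not_lt.1 h) (by linarith only [hx1] : 0 ≤ x1)
    linarith only [hx2, hr2, this]
  have hb10 : 0 < b1 := by
    by_contra h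
    have := mul_nonpos_of_nonpos_of_nonneg (not_lt.1 h) (by linarith only [hx1] : 0 ≤ x1)
    linarith only [hobt, this]
  have hbO1 : 1 ≤ 2 * bO := by
    rw [hbO]
    rcases hR.bOz with h | h
    · rw [← hbO] at h
      linarith only [hbO0, h]
    · exact h
  -- the root `n = d1 + 2 bO d2`
  have hn : (0 : ℝ) • t + (1 : ℝ) • d1 + (2 * bO) • d2 ∈ Ψ := by
    have h1 := hR.r2 _ _ _ hR.e1
    have e1 : 2 * (-B t d2) * 0 + 2 * (-B d1 d2) * 1 - 0 = 2 * bO := by
      rw [hbO]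
      ring
    rw [e1] at h1
    exact h1
  obtain ⟨n, hndef⟩ : ∃ n, n = (0 : ℝ) • t + (1 : ℝ) • d1 + (2 * bO) • d2 := ⟨_, rfl⟩
  rw [← hndef] at hn
  have hnp : n ∈ C01 t d1 d2 := ⟨0, 1, 2 * bO, hndef, Or.inl rfl, Or.inr le_rfl, Or.inr hbO1⟩
  have hnt : n ≠ t := by
    rintro h
    have h2 : (0 : ℝ) • t + (1 : ℝ) • d1 + (2 * bO) • d2 =
        (1 : ℝ) • t + (0 : ℝ) • d1 + (0 : ℝ) • d2 := by
      rw [← hndef, h]
      module
    obtain ⟨h3, -, -⟩ := L.tri.coordW h2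
    linarith only [h3]
  have hS := L.str n hn hnp hnt
  have hBn : -B t n = b1 := by
    rw [hndef, map_add, map_add, map_smul, map_smul, map_smul, smul_eq_mul, smul_eq_mul,
      smul_eq_mul, hb2, hb1]
    ring
  have hφn : φ n = 2 * bO * φ d2 := by
    rw [hndef, L.val_φ, f1]
    ring
  have hρn : ρ n = 0 := by
    rw [hndef, L.val_ρ, r1, r2]
    ring
  rw [hBn, hφn, hρn] at hS
  have hf2 : φ d2 < 0 := by
    by_contra h
    have := mul_nonneg (not_lt.1 h) (by linarith only [hx2] : 0 ≤ x2)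
    linarith only [f2, this]
  have hneg : 2 * bO * φ d2 < 0 := mul_neg_of_pos_of_neg (by linarith only [hbO1]) hf2
  have s0 : sq b1 0 = 0 := rfl
  have s1 : sq b1 (0 + 1) = 1 := rfl
  have s2 : sq b1 (1 + 1) = 2 * b1 := sq_two' b1
  have hx24 : x2 ≤ 4 * b1 * bO := by
    by_contra hcon
    rw [not_le] at hcon
    have h1 := hS.nk hneg 1 (by
      intro i hi
      rcases Nat.eq_zero_or_pos i with h | h
      · rw [h, s1]
        norm_num
      · have : i = 1 := by omega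
        rw [this, s2]
        linarith only [hb10]) (by
      intro i hi
      have : i = 0 := by omega
      rw [this, s1, s0]
      linarith only [hneg]) (by
      rw [s2]
      have e1 : sq b1 1 = 1 := rfl
      rw [e1]
      -- `x2 (1 - 4 b1 bO κ) = x2 - 4 b1 bO > 0`
      have h2 : 0 < x2 * (2 * b1 * (2 * bO * φ d2) + 1) := by
        have : x2 * (2 * b1 * (2 * bO * φ d2) + 1) = 4 * b1 * bO * (φ d2 * x2) + x2 := by ring
        rw [this, f2]
        linarith only [hcon]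
      exact (mul_pos_iff_of_pos_left (by linarith only [hx2])).1 h2)
    rw [s2] at h1
    have e1 : sq b1 1 = 1 := rfl
    rw [e1] at h1
    linarith
  -- `x1 ≥ 2 b1`
  have h1 : 2 * b1 ≤ x1 := by
    have h2 : 0 ≤ x1 * (x1 - 2 * b1) := by
      have : x1 * (x1 - 2 * b1) = x2 * (2 * bO * x1 - x2) := by linear_combination hN
      rw [this]
      exact mul_nonneg (by linarith only [hx2]) hr2
    have := nonneg_of_mul_nonneg_right h2 (by linarith only [hx1])
    linarith only [this]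
  have h2 : 0 ≤ (x1 - 2 * b1) * (2 * bO * x2 - x1) := by
    apply mul_nonneg (by linarith only [h1])
    -- `x1' - 2 b1 ≥ x1 - 2 b1`
    linarith only [hac, h1]
  have h3 : (x1 - 2 * b1) * (2 * bO * x2 - x1) = x2 * (x2 - 4 * b1 * bO) := by
    linear_combination -hN
  have h4 : x2 = 4 * b1 * bO := by
    rw [h3] at h2
    have := nonneg_of_mul_nonneg_right h2 (by linarith only [hx2])
    linarith only [hx24, this]
  have h5 : x1 = 2 * b1 := by
    have h6 : (x1 - 2 * b1) * (2 * bO * x2 - x1) = 0 := by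
      rw [h3, h4]
      ring
    rcases mul_eq_zero.1 h6 with h7 | h7
    · linarith only [h7]
    · linarith
  -- `x = t + 2 b1 n`
  have h6 : n = (1 / (2 * b1)) • x + (-(1 / (2 * b1))) • t := by
    rw [e, h4, h5, hndef]
    match_scalars <;> field_simp <;> ring
  have hp : 0 < 1 / (2 * b1) := by positivity
  rcases L.cxt _ hn _ _ h6 with (⟨k1, k2⟩ | ⟨k1, k2⟩ | ⟨k1, k2⟩) | (⟨k1, k2⟩ | ⟨k1, k2⟩ | ⟨k1, k2⟩)
  all_goals linarith

/-- **[E0]** for the steeper root `x` -/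
theorem e0_aux (L : Loc Ψ B ρ φ t d1 d2 x x') (h1 : 0 ≤ φ d1) (h2 : φ d2 < 0)
    (h3 : φ d1 ≤ ρ d1) {g x1 x2 g' y1 y2 : ℝ} (e : x = g • t + x1 • d1 + x2 • d2)
    (e' : x' = g' • t + y1 • d1 + y2 • d2)
    (c : Crd (-B t d1) (-B t d2) (-B d1 d2) (-φ d1) (-φ d2) g x1 x2)
    (c' : Crd (-B t d1) (-B t d2) (-B d1 d2) (-φ d1) (-φ d2) g' y1 y2)
    (r : ρ x = g + x1 * ρ d1 + x2 * ρ d2) (r' : ρ x' = g' + y1 * ρ d1 + y2 * ρ d2)
    (st : x1 * y2 < x2 * y1) (hx1 : 1 ≤ x1) (hx2 : 1 ≤ x2) (hy1 : 1 ≤ y1) (hy2 : 0 ≤ y2)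
    (hg' : 0 ≤ g') : False := by
  have hR := rt_of_tri L.tri
  have hxm : g • t + x1 • d1 + x2 • d2 ∈ Ψ := by
    rw [← e]
    exact L.xm
  have hym : g' • t + y1 • d1 + y2 • d2 ∈ Ψ := by
    rw [← e']
    exact L.xm'
  have hBB := L.cxx.nonpos L.tri.sys L.xm L.xm'
  rw [e, e', L.val_B] at hBB
  have C : Cfg (-B t d1) (-B t d2) (-B d1 d2) (fun g x1 x2 => g • t + x1 • d1 + x2 • d2 ∈ Ψ)
      (-φ d2) (φ d1) g x1 x2 g' y1 y2 := by
    refine ⟨hR, hxm, hym, hx1, hx2, hy1, hy2, hg', h1, by linarith only [h2], ?_, ?_, st, ?_, ?_⟩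
    · have := c.fz
      linarith only [this]
    · have := c'.fz
      linarith only [this]
    · have := c.obt
      linarith only [this]
    · linarith
  -- the sum
  have hsum := L.sum
  rw [r, r'] at hsum
  have hX : 0 < x2 + y2 := by linarith only [hx2, hy2]
  have hS0 : (-φ d2 + ρ d2) * (x2 + y2) ≤
      (g + x1 * ρ d1 + x2 * ρ d2) + (g' + y1 * ρ d1 + y2 * ρ d2) := by
    have k1 := C.e
    have k2 := C.e'
    have k3 := mul_le_mul_of_nonneg_left h3 (by linarith only [hx1, hy1] : 0 ≤ x1 + y1)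
    linarith only [k1, k2, k3]
  have hg1 := C.g_one
  -- the vertex `t ∩ d2`
  have hd2 : d2 ∈ C01 t d1 d2 := ⟨0, 0, 1, by module, Or.inl rfl, Or.inl rfl, Or.inr le_rfl⟩
  have n2 : d2 ≠ t := by
    intro h
    have := (L.tri.indep 1 0 (-1) (by rw [h]; module)).1
    exact one_ne_zero this
  have S2 := L.str d2 L.tri.hc hd2 n2
  rcases vinfo2 S2 hR.b2n h2 hR.pge hR.pnn with hv | ⟨hv0, hv⟩ | ⟨hv1, hv2, hv3⟩ |
    ⟨k, hk, hs, hκ, hv⟩ | ⟨hc1, hall, hκ⟩
  · -- `r2 > 0`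
    have k1 := C.e
    have k2 := C.e'
    have k3 := mul_nonneg h1 (by linarith only [hx1] : 0 ≤ x1)
    have k4 := mul_nonneg h1 (by linarith only [hy1] : 0 ≤ y1)
    have k5 := mul_pos hv hX
    nlinarith only [hg', hsum, hS0, hg1, k1, k2, k3, k4, k5]
  · -- label 2
    have hb2 : B t d2 = 0 := by linarith only [hv0]
    have k1 := C.e
    have k2 := C.e'
    have k3 := mul_nonneg h1 (by linarith only [hx1] : 0 ≤ x1)
    have k4 := mul_nonneg h1 (by linarith only [hy1] : 0 ≤ y1)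
    have k5 := mul_nonneg hv hX.le
    have k6 := mul_nonneg (by linarith only [h3] : 0 ≤ ρ d1 - φ d1) (by linarith only [hx1, hy1] : 0 ≤ x1 + y1)
    have hg : g = 1 := by nlinarith only [hg', hsum, hS0, hg1, k1, k2, k3, k4, k5]
    have m1 : φ d1 * x1 = 0 := by nlinarith only [hg', hsum, hS0, hg1, k1, k2, k3, k4, k5]
    have m2 : g' = 0 := by nlinarith only [hg', hsum, k4, k5, k6, hg, m1]
    have m3 : ρ d2 * (x2 + y2) = 0 := by nlinarith only [hsum, k4, k5, k6, hg, m1, m2]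
    have m4 : (ρ d1 - φ d1) * (x1 + y1) = 0 := by nlinarith only [hsum, k4, k5, k6, hg, m1, m2]
    have f1 : φ d1 = 0 := by
      rcases mul_eq_zero.1 m1 with h | h
      · exact h
      · linarith only [hx1, h]
    have r2 : ρ d2 = 0 := by
      rcases mul_eq_zero.1 m3 with h | h
      · exact h
      · linarith only [hX, h]
    have r1 : ρ d1 = 0 := by
      rcases mul_eq_zero.1 m4 with h | h
      · linarith only [f1, h]
      · linarith only [hx1, hy1, h]
    have hy20 : y2 = 0 := by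
      rw [m2, f1, zero_mul, sub_zero] at k2
      rcases mul_eq_zero.1 k2.symm with h | h
      · linarith only [h2, h]
      · exact h
    have hN' := c'.nrm
    rw [m2, hy20] at hN'
    have hy11 : y1 = 1 := by nlinarith only [hy1, hN']
    have hr2 : 0 ≤ 2 * (-B d1 d2) * x1 - x2 := by
      rcases c.r2 with ⟨h, -, -⟩ | h
      · linarith only [hg, h]
      · rw [hb2] at h
        rcases h with h | h <;> linarith only [h]
    refine label_two L (b1 := -B t d1) (bO := -B d1 d2) rfl hb2 rfl (by rw [e, hg]) hx1 hx2 ?_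
      hr2 ?_ ?_ f1 ?_ r1 r2
    · have := c.nrm
      rw [hg, hb2] at this
      linarith only [this]
    · have := c.obt
      rw [hg, hb2] at this
      linarith only [this]
    · rw [m2, hy20, hy11, hb2, hg] at hBB
      linarith only [hBB]
    · rw [hg, f1] at k1
      linarith only [k1]
  · -- beyond, finite label
    have hκ : 2 * (-B t d2) < -φ d2 := by
      rcases hv2.lt_or_eq with h | h
      · exact h
      · exfalso
        refine no_flat L e e' hx1 hy1 (α := 2 * (-B t d2)) (β := 1) ?_ (by linarith only [h])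
        have k1 := hR.r0 _ _ _ hR.e2
        have e1 : 2 * (-B t d1) * 0 + 2 * (-B t d2) * 1 - 0 = 2 * (-B t d2) := by ring
        rw [e1] at k1
        exact k1
    have := C.fin_beyond (by linarith only [hv1]) hκ h3 hv3
    linarith only [hsum, this]
  · -- the kill
    have hκ' : sq (-B t d2) k < -φ d2 * sq (-B t d2) (k + 1) := by
      rcases hκ.lt_or_eq with h | h
      · exact h
      · exfalso
        refine no_flat L e e' hx1 hy1 (α := sq (-B t d2) k) (β := sq (-B t d2) (k + 1)) ?_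
          (by linarith only [h])
        exact (RT.pencil hR k).1
    have key := C.main hk hs hκ'
    have k1 : (-φ d2 - (sq (-B t d2) (k + 1) - 1) / sq (-B t d2) (k + 2)) * (x2 + y2) <
        (-φ d2 + ρ d2) * (x2 + y2) := mul_lt_mul_of_pos_right (by linarith only [hv]) hX
    linarith only [hsum, hS0, key, k1]
  · exact C.not_inf hc1 hall hκ

/-- **[E0]** -/
theorem e0_stat (Ψ : Set E) (B : E →ₗ[ℝ] E →ₗ[ℝ] ℝ) : E0Stat Ψ B := by
  intro ρ φ t d1 d2 x x' L h1 h2 h3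
  have z1n : ∀ α : ℝ, Z1 α → 0 ≤ α := by
    intro α h
    rcases h with h | h <;> linarith only [h]
  suffices H : ∀ (x x' : E), Loc Ψ B ρ φ t d1 d2 x x' → ∀ g x1 x2 g' x1' x2' : ℝ,
      x = g • t + x1 • d1 + x2 • d2 → x' = g' • t + x1' • d1 + x2' • d2 →
      Crd (-B t d1) (-B t d2) (-B d1 d2) (-φ d1) (-φ d2) g x1 x2 →
      Crd (-B t d1) (-B t d2) (-B d1 d2) (-φ d1) (-φ d2) g' x1' x2' →
      ρ x = g + x1 * ρ d1 + x2 * ρ d2 → ρ x' = g' + x1' * ρ d1 + x2' * ρ d2 →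
      x1 * x2' < x2 * x1' → False by
    obtain ⟨g, x1, x2, g', x1', x2', e, e', c, c', r, r'⟩ := L.crd
    have hdet := L.det_ne e e'
    rcases lt_or_gt_of_ne hdet with h4 | h4
    · exact H x x' L g x1 x2 g' x1' x2' e e' c c' r r' (by linarith only [h4])
    · exact H x' x L.swapx g' x1' x2' g x1 x2 e' e c' c r' r (by linarith only [h4])
  intro x x' L g x1 x2 g' x1' x2' e e' c c' r r' hst
  have n1 := L.x1_ne L.cxt L.fx h2 e (z1n _ c.zg) (z1n _ c.z2)
  have n1' := L.x1_ne L.cxt' L.fx' h2 e' (z1n _ c'.zg) (z1n _ c'.z2)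
  have p1 : 1 ≤ x1 := by
    rcases c.z1 with h | h
    · exact absurd h n1
    · exact h
  have p1' : 1 ≤ x1' := by
    rcases c'.z1 with h | h
    · exact absurd h n1'
    · exact h
  have p2' : 0 ≤ x2' := z1n _ c'.z2
  have p2 : 1 ≤ x2 := by
    rcases c.z2 with h | h
    · exfalso
      rw [h, zero_mul] at hst
      have := mul_nonneg (z1n _ c.z1) p2'
      linarith only [hst, this]
    · exact h
  exact e0_aux L h1 h2 h3 e e' c c' r r' hst p1 p2 p1' p2' (z1n _ c'.zg)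

end Pool.Agent.Helper80.DY
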