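import Mathlib

/-!
# MP_d13a5e_al, GAP2, `j = 3`, `φ w ≥ 0`: the real inequality (R3) for `m1 = 5`, `√2 ≤ s ≤ 2`

`a = 2 b1`, `a ^ 2 = a + 1`, `A = a ^ 2 - 2 = a - 1`, `s = 2 b2`, `Y = w_2`, `eta = a Y`, `h = a g - v`, `v = x1`,
`z = A v + s eta - h`.
-/

set_option autoImplicit false

namespace Pool.Agent.Helper80.DY

/-- the end point `v = 1` -/
theorem r5_q1 {a s τ r y : ℝ} (ha : a ^ 2 = a + 1) (ha1 : 1.618 < a) (ha2 : a < 1.6181)
    (hs : 1.414 < s) (hs2 : s ≤ 2) (hτ : τ * (s + 1) = 1) (hr : r * s = 1) (hy : 0.72 ≤ y) :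
    0 < ((s + 1) * a * y - 0.512) * ((2 - a) + a * (1 + y) * r - 2 * τ) +
        2 * τ * (a - 1) - a ^ 2 * y ^ 2 - 2 * y := by
  have hτ0 : 0 < τ := by
    by_contra h
    have := mul_nonpos_of_nonpos_of_nonneg (not_lt.1 h) (by linarith only [hs] : 0 ≤ s + 1)
    linarith only [hτ, this]
  have hr0 : 0 < r := by
    by_contra h
    have := mul_nonpos_of_nonpos_of_nonneg (not_lt.1 h) (by linarith only [hs] : 0 ≤ s)
    linarith only [hr, this]
  have hτ1 : τ < 0.4143 := by linarith only [hτ, mul_pos hτ0 (by linarith only [hs] : 0 < s - 1.414)]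
  have f1 : 0 ≤ (s + 1) * (a - 1) - (a + 1) + r * (a + 1 - 0.512 * a) := by
    have g1 : s * (0.618 * s - 2.0001 + 1.7895 * r) = 0.618 * s ^ 2 - 2.0001 * s + 1.7895 := by
      linear_combination 1.7895 * hr
    have g2 : 0 ≤ s * (0.618 * s - 2.0001 + 1.7895 * r) := by
      rw [g1]
      linarith only [hs2, sq_nonneg (s - 1.618)]
    have g3 := nonneg_of_mul_nonneg_right g2 (by linarith only [hs])
    have g4 : (s + 1) * 0.618 ≤ (s + 1) * (a - 1) :=
      mul_le_mul_of_nonneg_left (by linarith only [ha1]) (by linarith only [hs])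
    have g5 : r * 1.7895 ≤ r * (a + 1 - 0.512 * a) :=
      mul_le_mul_of_nonneg_left (by linarith only [ha1]) hr0.le
    linarith only [ha2, g3, g4, g5]
  have f2 : 0 ≤ -0.512 * ((2 - a) + a * r - 2 * τ) + 2 * τ * (a - 1) := by
    have g1 : s * (s + 1) * (-0.1956 - 0.8285 * r + 2.26 * τ) =
        -0.1956 * s ^ 2 + 1.2359 * s - 0.8285 := by
      linear_combination (-0.8285 * (s + 1)) * hr + (2.26 * s) * hτ
    have g2 : 0 ≤ s * (s + 1) * (-0.1956 - 0.8285 * r + 2.26 * τ) := by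
      rw [g1]
      linarith only [hs, mul_nonneg (by linarith only [hs] : 0 ≤ s - 1.414) (by linarith only [hs2] : 0 ≤ 2 - s)]
    have g3 := nonneg_of_mul_nonneg_right g2 (mul_pos (by linarith only [hs]) (by linarith only [hs]))
    have g4 : a * r ≤ 1.6181 * r := mul_le_mul_of_nonneg_right ha2.le hr0.le
    have g5 : τ * 2.26 ≤ τ * (2 * a - 0.976) := mul_le_mul_of_nonneg_left (by linarith only [ha1]) hτ0.le
    linarith only [ha1, hr0, g3, g4, g5]
  have f3 : ((s + 1) * a * y - 0.512) * ((2 - a) + a * (1 + y) * r - 2 * τ) +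
      2 * τ * (a - 1) - a ^ 2 * y ^ 2 - 2 * y =
      a ^ 2 * r * y ^ 2 + y * ((s + 1) * (a - 1) - (a + 1) + r * (a + 1 - 0.512 * a)) +
        (-0.512 * ((2 - a) + a * r - 2 * τ) + 2 * τ * (a - 1)) := by
    linear_combination (a ^ 2 * y ^ 2 + a ^ 2 * y) * hr - (2 * a * y) * hτ +
      (y * (1 + r) - (s + 1) * y) * ha
  rw [f3]
  have f4 : 0 < a ^ 2 * r * y ^ 2 := by positivity
  have f5 := mul_nonneg (by linarith only [hy] : 0 ≤ y) f1
  linarith only [f2, f4, f5]

/-- the end point `v = s a (1 + y)` -/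
theorem r5_q2 {a s τ r y V : ℝ} (ha : a ^ 2 = a + 1) (ha1 : 1.618 < a) (ha2 : a < 1.6181)
    (hs : 1.414 < s) (hs2 : s ≤ 2) (hτ : τ * (s + 1) = 1) (hr : r * s = 1) (hy : 0.72 ≤ y)
    (hV : V = s * a * (1 + y)) :
    0 < ((s + 1) * a * y - 0.512 * V) * ((2 - a) * V + a * (1 + y) * r - 2 * τ) +
        2 * τ * (a - 1) * V - a ^ 2 * y ^ 2 - 2 * y := by
  have hτ0 : 0 < τ := by
    by_contra h
    have := mul_nonpos_of_nonpos_of_nonneg (not_lt.1 h) (by linarith only [hs] : 0 ≤ s + 1)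
    linarith only [hτ, this]
  have hr0 : 0 < r := by
    by_contra h
    have := mul_nonpos_of_nonpos_of_nonneg (not_lt.1 h) (by linarith only [hs] : 0 ≤ s)
    linarith only [hr, this]
  have hτ1 : τ < 0.4143 := by linarith only [hτ, mul_pos hτ0 (by linarith only [hs] : 0 < s - 1.414)]
  obtain ⟨t, ht⟩ : ∃ t, t = y - 0.72 := ⟨_, rfl⟩
  have ht0 : 0 ≤ t := by linarith only [hy, ht]
  have hyt : y = 0.72 + t := by linarith only [ht]
  have f1 : 0.3987 + 1.69 * t ≤ (s + 1) * y - 0.512 * s * (1 + y) := by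
    rw [hyt]
    linarith only [hs2, ht0, mul_nonneg ht0 (by linarith only [hs] : 0 ≤ s - 1.414)]
  have f2 : 2 * y + 2 * (1 - τ) ≤ (1 + y) * ((a - 1) * s + a * r) - 2 * τ := by
    have g1 : 2 ≤ (a - 1) * s + a * r := by
      have g2 : s * ((a - 1) * s + a * r - 2) = (a - 1) * (s - a) ^ 2 := by
        linear_combination a * hr + (2 * s - a) * ha
      have g3 : 0 ≤ s * ((a - 1) * s + a * r - 2) := by
        rw [g2]
        exact mul_nonneg (by linarith only [ha1]) (sq_nonneg _)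
      have := nonneg_of_mul_nonneg_right g3 (by linarith only [hs])
      linarith only [this]
    have g4 : (1 + y) * 2 ≤ (1 + y) * ((a - 1) * s + a * r) :=
      mul_le_mul_of_nonneg_left g1 (by linarith only [ht0, hyt])
    linarith only [g4]
  have e1 : (s + 1) * a * y - 0.512 * V = a * ((s + 1) * y - 0.512 * s * (1 + y)) := by
    rw [hV]
    ring
  have e2 : (2 - a) * V + a * (1 + y) * r - 2 * τ =
      (1 + y) * ((a - 1) * s + a * r) - 2 * τ := by
    rw [hV]
    linear_combination (-(s * (1 + y))) * ha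
  have e3 : 2 * τ * (a - 1) * V = 2 * (1 - τ) * (1 + y) := by
    rw [hV]
    linear_combination (2 * τ * s * (1 + y)) * ha + (2 * (1 + y)) * hτ
  rw [e1, e2, e3]
  obtain ⟨W, hW⟩ : ∃ W, W = (s + 1) * y - 0.512 * s * (1 + y) := ⟨_, rfl⟩
  obtain ⟨U, hU⟩ : ∃ U, U = (1 + y) * ((a - 1) * s + a * r) - 2 * τ := ⟨_, rfl⟩
  rw [← hW, ← hU]
  rw [← hW] at f1
  rw [← hU] at f2
  have f3 : 1.618 * (0.3987 + 1.69 * t) ≤ a * W :=
    mul_le_mul ha1.le f1 (by linarith only [ht0]) (by linarith only [ha1])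
  have f4 : 2 * t + 2.6114 ≤ U := by linarith only [hτ1, hyt, f2]
  have f5 : 1.618 * (0.3987 + 1.69 * t) * (2 * t + 2.6114) ≤ a * W * U :=
    mul_le_mul f3 f4 (by linarith only [ht0]) (mul_nonneg (by linarith only [ha1]) (by linarith only [ht0, f1]))
  have f6 : a ^ 2 * y ^ 2 ≤ 2.6182 * y ^ 2 := by
    apply mul_le_mul_of_nonneg_right _ (sq_nonneg y)
    linarith only [ha, ha2]
  have f7 : 0.5857 * (1 + y) ≤ (1 - τ) * (1 + y) :=
    mul_le_mul_of_nonneg_right (by linarith only [hτ1]) (by linarith only [ht0, hyt])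
  rw [hyt] at f6 f7 ⊢
  linarith only [ht0, f5, f6, f7, sq_nonneg t]

/-- the core: (Gz), (F'), `h ≥ v`, `P > 0`, `v < s a Y` are contradictory -/
theorem r5_core {a s τ r v y z : ℝ} (ha : a ^ 2 = a + 1) (ha1 : 1.618 < a) (ha2 : a < 1.6181)
    (hs : 1.414 < s) (hs2 : s ≤ 2) (hτ : τ * (s + 1) = 1) (hr : r * s = 1)
    (hv : 1 ≤ v) (hy : 0 ≤ y) (hz : 0 ≤ z) (hvY : v < s * a * (1 + y))
    (hF : (s + 1) * a * y - 0.512 * v < z)
    (hX : (2 - a) * v + a * (1 + y) * r - 2 * τ ≤ v + s * a * (1 + y) - z - 2 * τ)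
    (hG : 2 * τ * (a - 1) * v + z * (v + s * a * (1 + y) - z - 2 * τ) ≤ a ^ 2 * y ^ 2 + 2 * y) :
    False := by
  have hτ0 : 0 < τ := by
    by_contra h
    have := mul_nonpos_of_nonpos_of_nonneg (not_lt.1 h) (by linarith only [hs] : 0 ≤ s + 1)
    linarith only [hτ, this]
  have hr0 : 0 < r := by
    by_contra h
    have := mul_nonpos_of_nonpos_of_nonneg (not_lt.1 h) (by linarith only [hs] : 0 ≤ s)
    linarith only [hr, this]
  have hτ1 : τ < 0.4143 := by linarith only [hτ, mul_pos hτ0 (by linarith only [hs] : 0 < s - 1.414)]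
  have hτ2 : 1 / 3 ≤ τ := by linarith only [hτ, mul_nonneg hτ0.le (by linarith only [hs2] : 0 ≤ 2 - s)]
  have hr1 : 1 / 2 ≤ r := by linarith only [hr, mul_nonneg hr0.le (by linarith only [hs2] : 0 ≤ 2 - s)]
  obtain ⟨X, hXd⟩ : ∃ X, X = v + s * a * (1 + y) - z - 2 * τ := ⟨_, rfl⟩
  rw [← hXd] at hX hG
  -- `y ≤ τ A (z + D v)`
  have hyz : y ≤ τ * (a - 1) * (z + 0.512 * v) := by
    have h1 : a * (a - 1) = 1 := by linear_combination ha
    have h2 : τ * (a - 1) * ((s + 1) * a * y) ≤ τ * (a - 1) * (z + 0.512 * v) :=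
      mul_le_mul_of_nonneg_left (by linarith only [hF]) (mul_nonneg hτ0.le (by linarith only [ha1]))
    have h3 : τ * (a - 1) * ((s + 1) * a * y) = (τ * (s + 1)) * (a * (a - 1)) * y := by ring
    rw [h3, hτ, h1] at h2
    linarith only [h2]
  rcases le_or_gt y 0.72 with hy7 | hy7
  · -- small `y`
    have h1 : a ^ 2 * y ^ 2 ≤ a ^ 2 * y * (τ * (a - 1) * (z + 0.512 * v)) := by
      have : a ^ 2 * y * y ≤ a ^ 2 * y * (τ * (a - 1) * (z + 0.512 * v)) :=
        mul_le_mul_of_nonneg_left hyz (mul_nonneg (sq_nonneg a) hy)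
      linarith only [this]
    have h1' : a ^ 2 * y * (τ * (a - 1) * (z + 0.512 * v)) = τ * a * y * (z + 0.512 * v) := by
      have e : a * (a - 1) = 1 := by linear_combination ha
      have : a ^ 2 * y * (τ * (a - 1) * (z + 0.512 * v)) =
        τ * a * y * (z + 0.512 * v) * (a * (a - 1)) := by ring
      rw [this, e, mul_one]
    have h2 : 0 < τ * v * (2 * (a - 1) * 0.488 - a * 0.512 * y) := by
      apply mul_pos (mul_pos hτ0 (by linarith only [hv]))
      have : a * y ≤ 1.6181 * 0.72 := mul_le_mul ha2.le hy7 hy (by norm_num)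
      linarith only [ha1, this]
    have h3 : 0 ≤ z * (X - 2 * τ * (a - 1) - τ * a * y) := by
      apply mul_nonneg hz
      -- `X ≥ (2 - a) v + a (1 + y) r - 2 τ`
      have e1 : τ ≤ r := by
        have : τ * s + τ = 1 := by linarith only [hτ]
        by_contra hh
        have := mul_pos (by linarith only [hτ1, hr1, hh] : 0 < s) (sub_pos.2 (not_le.1 hh))
        linarith only [hτ1, hr1, hh]
      have e2 : τ * (a * y) ≤ r * (a * y) :=
        mul_le_mul_of_nonneg_right e1 (mul_nonneg (by linarith only [ha1]) hy)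
      -- `a r - 2 τ a = - a (s - 1) τ r`
      have e3 : r - 2 * τ = -((s - 1) * τ * r) := by
        have f1 : r = r * (τ * (s + 1)) := by rw [hτ, mul_one]
        have f2 : τ = τ * (r * s) := by rw [hr, mul_one]
        linear_combination f1 - 2 * f2
      have e4 : (s - 1) * τ * r ≤ 0.21 := by
        have f2 : (s - 1) * τ * r = (s - 1) * r * τ := by ring
        have f3 : (s - 1) * r ≤ 1 / 2 := by linarith only [hr, hr1]
        have f4 : 0 ≤ (s - 1) * r := mul_nonneg (by linarith only [hs]) hr0.le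
        rw [f2]
        have f5 := mul_le_mul f3 hτ1.le hτ0.le (by norm_num : (0 : ℝ) ≤ 1 / 2)
        linarith only [f5]
      have e5 : (2 - a) * 1 ≤ (2 - a) * v := mul_le_mul_of_nonneg_left hv (by linarith only [ha2])
      have e6 : a * ((s - 1) * τ * r) ≤ 1.6181 * 0.21 := by
        apply mul_le_mul ha2.le e4 _ (by norm_num)
        exact mul_nonneg (mul_nonneg (by linarith only [hs]) hτ0.le) hr0.le
      have e7 : a * (1 + y) * r - 2 * τ - 2 * τ * (a - 1) - τ * a * y =
          a * (r - 2 * τ) + (r * (a * y) - τ * (a * y)) := by ring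
      have e8 : a * (r - 2 * τ) = -(a * ((s - 1) * τ * r)) := by rw [e3]; ring
      linarith only [ha2, hX, e2, e5, e6, e8]
    linarith only [hG, hyz, h1, h1', h2, h3]
  · -- large `y`
    obtain ⟨z0, hz0⟩ : ∃ z0, z0 = (s + 1) * a * y - 0.512 * v := ⟨_, rfl⟩
    obtain ⟨X0, hX0⟩ : ∃ X0, X0 = (2 - a) * v + a * (1 + y) * r - 2 * τ := ⟨_, rfl⟩
    rw [← hX0] at hX
    rw [← hz0] at hF
    have hX0p : 0 < X0 := by
      have e1 : 0 < (2 - a) * v := mul_pos (by linarith only [ha2]) (by linarith only [hv])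
      have e2 : 1.618 * 1.72 ≤ a * (1 + y) := mul_le_mul ha1.le (by linarith only [hy7]) (by norm_num) (by linarith only [ha1])
      have e3 : 1.618 * 1.72 * (1 / 2) ≤ a * (1 + y) * r := mul_le_mul e2 hr1 (by norm_num)
        (mul_nonneg (by linarith only [ha1]) (by linarith only [hy7]))
      rw [hX0]
      linarith only [hτ1, e1, e3]
    have hzX : z0 * X0 ≤ z * X := by
      have e1 : z0 * X0 ≤ z * X0 := mul_le_mul_of_nonneg_right hF.le hX0p.le
      have e2 : z * X0 ≤ z * X := mul_le_mul_of_nonneg_left hX hz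
      linarith only [e1, e2]
    have hq : z0 * X0 + 2 * τ * (a - 1) * v - a ^ 2 * y ^ 2 - 2 * y ≤ 0 := by linarith
    -- `q` is concave in `v`; the end points are `1` and `s a (1 + y)`
    obtain ⟨V, hV⟩ : ∃ V, V = s * a * (1 + y) := ⟨_, rfl⟩
    rw [← hV] at hvY
    have hV1 : 1 < V := by linarith only [hv, hvY]
    have q1 := r5_q1 ha ha1 ha2 hs hs2 hτ hr (by linarith only [hy7] : (0.72 : ℝ) ≤ y)
    have q2 := r5_q2 ha ha1 ha2 hs hs2 hτ hr hy7.le hV
    have hq' : 0 < (V - 1) * (z0 * X0 + 2 * τ * (a - 1) * v - a ^ 2 * y ^ 2 - 2 * y) := by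
      have e1 : (V - 1) * (z0 * X0 + 2 * τ * (a - 1) * v - a ^ 2 * y ^ 2 - 2 * y) =
          (V - v) * (((s + 1) * a * y - 0.512) * ((2 - a) + a * (1 + y) * r - 2 * τ) +
            2 * τ * (a - 1) - a ^ 2 * y ^ 2 - 2 * y) +
          (v - 1) * (((s + 1) * a * y - 0.512 * V) * ((2 - a) * V + a * (1 + y) * r - 2 * τ) +
            2 * τ * (a - 1) * V - a ^ 2 * y ^ 2 - 2 * y) +
          0.512 * (2 - a) * ((v - 1) * (V - v) * (V - 1)) := by
        rw [hz0, hX0]
        ring
      rw [e1]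
      have g1 := mul_pos (by linarith only [hvY] : 0 < V - v) q1
      have g2 := mul_nonneg (by linarith only [hv] : 0 ≤ v - 1) q2.le
      have g3 : 0 ≤ 0.512 * (2 - a) * ((v - 1) * (V - v) * (V - 1)) := by
        apply mul_nonneg (mul_nonneg (by norm_num) (by linarith only [ha2]))
        exact mul_nonneg (mul_nonneg (by linarith only [hv]) (by linarith only [hvY])) (by linarith only [hV1])
      linarith only [g1, g2, g3]
    have := mul_nonpos_of_nonneg_of_nonpos (by linarith only [hV1] : 0 ≤ V - 1) hq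
    linarith only [hq', this]

/-- **the real inequality for `m1 = 5`, `√2 ≤ s ≤ 2`** (`j = 3`, `φ w ≥ 0`) -/
theorem r5 {a s e h v Y : ℝ} (ha : a ^ 2 = a + 1) (ha0 : 0 < a) (hs2 : 2 ≤ s ^ 2) (hs0 : 0 < s)
    (hs4 : s ≤ 2) (he : e + 1 / e = (a ^ 2 - 2) + s ^ 2) (he0 : 0 < e) (he1 : e ≤ 1)
    (hv : 1 ≤ v) (hY : 1 ≤ Y) (hz : 0 ≤ (a ^ 2 - 2) * v + s * (a * Y) - h)
    (hP : a * Y < s * h)
    (hN : h ^ 2 + v ^ 2 + (a * Y) ^ 2 - (a ^ 2 - 2) * h * v - s * (h + v) * (a * Y) = a ^ 2)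
    (hK : v ^ 2 ≤ h ^ 2 - s * h * (a * Y) + (a * Y) ^ 2 + a ^ 2 - 2 * a / (s + 1) * (h + a * Y)) :
    (s + 1) * (a + e * v) ≤ h + a * Y := by
  by_contra hcon
  push Not at hcon
  have ha1 : 1.618 < a := by
    by_contra hc
    have := mul_nonneg ha0.le (by linarith only [hc] : 0 ≤ 1.618 - a)
    linarith only [ha, hc, this]
  have ha2 : a < 1.6181 := by
    by_contra hc
    have := mul_nonneg ha0.le (by linarith only [hc] : 0 ≤ a - 1.6181)
    linarith only [ha, hc, this]
  have hs1 : 1.41421 < s := by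
    by_contra hc
    have := mul_le_mul (not_lt.1 hc) (not_lt.1 hc) hs0.le (by norm_num : (0 : ℝ) ≤ 1.41421)
    linarith only [hs2, this]
  obtain ⟨A, hA⟩ : ∃ A, A = a - 1 := ⟨_, rfl⟩
  have hA2 : a ^ 2 - 2 = A := by rw [hA]; linarith only [ha]
  rw [hA2] at he hz hN
  obtain ⟨τ, hτd⟩ : ∃ τ, τ = 1 / (s + 1) := ⟨_, rfl⟩
  have hτ : τ * (s + 1) = 1 := by
    rw [hτd]
    exact one_div_mul_cancel (by linarith only [hs1])
  have hτ0 : 0 < τ := by rw [hτd]; positivity
  have hτ1 : τ < 0.41422 := by linarith only [hτ, mul_pos hτ0 (by linarith only [hs1] : 0 < s - 1.41421)]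
  obtain ⟨r, hrd⟩ : ∃ r, r = 1 / s := ⟨_, rfl⟩
  have hr : r * s = 1 := by
    rw [hrd]
    exact one_div_mul_cancel (by linarith only [hs1])
  have hr0 : 0 < r := by rw [hrd]; positivity
  have hKτ : 2 * a / (s + 1) * (h + a * Y) = 2 * a * τ * (h + a * Y) := by
    rw [hτd]
    ring
  rw [hKτ] at hK
  obtain ⟨z, hzd⟩ : ∃ z, z = A * v + s * (a * Y) - h := ⟨_, rfl⟩
  rw [← hzd] at hz
  have hh : h = A * v + s * (a * Y) - z := by rw [hzd]; ring
  obtain ⟨y, hyd⟩ : ∃ y, y = Y - 1 := ⟨_, rfl⟩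
  have hy : 0 ≤ y := by linarith only [hY, hyd]
  have hYy : Y = 1 + y := by linarith
  -- (1) `(s + 1) e < 1.13`
  have hE : (s + 1) * e < 1.13 := by
    by_contra hE
    push Not at hE
    have e1 : e ^ 2 - (A + s ^ 2) * e + 1 = 0 := by
      rw [← he]
      field_simp
      ring
    have e2 : (s + 1) ^ 2 * (e ^ 2 - (A + s ^ 2) * e + 1) =
        ((s + 1) * e - 1.13) * ((s + 1) * e + 1.13 - (A + s ^ 2) * (s + 1)) +
        (1.13 ^ 2 - (A + s ^ 2) * (1.13 * (s + 1)) + (s + 1) ^ 2) := by ring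
    have e3 : 1.13 ^ 2 - (A + s ^ 2) * (1.13 * (s + 1)) + (s + 1) ^ 2 < 0 := by
      have g1 : 0.618 + s ^ 2 ≤ A + s ^ 2 := by linarith only [ha1, hA]
      have g2 : (0.618 + s ^ 2) * (1.13 * (s + 1)) ≤ (A + s ^ 2) * (1.13 * (s + 1)) :=
        mul_le_mul_of_nonneg_right g1 (by linarith only [hs1])
      linarith only [hs2, hs1, g2, mul_nonneg hs0.le (by linarith only [hs2] : 0 ≤ s ^ 2 - 2)]
    have e4 : (s + 1) * e + 1.13 - (A + s ^ 2) * (s + 1) ≤ 0 := by
      have g1 : (s + 1) * e ≤ (s + 1) * 1 := mul_le_mul_of_nonneg_left he1 (by linarith only [hs1])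
      have g2 : 2.6 * (s + 1) ≤ (A + s ^ 2) * (s + 1) :=
        mul_le_mul_of_nonneg_right (by linarith only [hs2, ha1, hA]) (by linarith only [hE, g1])
      linarith only [hE, g1, g2]
    have e5 := mul_nonpos_of_nonneg_of_nonpos (by linarith only [hE] : 0 ≤ (s + 1) * e - 1.13) e4
    rw [e1, mul_zero] at e2
    linarith
  -- (F')
  have hF : (s + 1) * a * y - 0.512 * v < z := by
    have e1 : (s + 1) * e * v ≤ 1.13 * v := mul_le_mul_of_nonneg_right hE.le (by linarith only [hv])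
    have e2 : 0.618 * v ≤ A * v := mul_le_mul_of_nonneg_right (by linarith only [ha1, hA]) (by linarith only [hv])
    rw [hzd, hyd]
    have e3 : A * v + s * (a * Y) - h - ((s + 1) * a * (Y - 1) - 0.512 * v) =
      ((s + 1) * (a + e * v) - (h + a * Y)) + ((1.13 * v - (s + 1) * e * v) + (A * v - 0.618 * v)) := by
      ring
    linarith
  -- (G2)
  have hG2 : v ^ 2 - s * a * Y * v + 2 * a * y + 2 * τ * A * v + z * ((1 - A) * v - 2 * τ) ≤ 0 := by
    have e1 : a * (v ^ 2 - s * a * Y * v + 2 * a * y + 2 * τ * A * v + z * ((1 - A) * v - 2 * τ)) =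
        (v ^ 2 - (h ^ 2 - s * h * (a * Y) + (a * Y) ^ 2 + a ^ 2 - 2 * a * τ * (h + a * Y))) +
        (h ^ 2 + v ^ 2 + (a * Y) ^ 2 - A * h * v - s * (h + v) * (a * Y) - a ^ 2) := by
      rw [hh, hyd, hA]
      linear_combination (-2 * a ^ 2 * Y) * hτ + (v ^ 2 - z * v) * ha
    have e2 : a * (v ^ 2 - s * a * Y * v + 2 * a * y + 2 * τ * A * v +
        z * ((1 - A) * v - 2 * τ)) ≤ 0 := by
      rw [e1]
      linarith only [hN, hK]
    exact nonpos_of_mul_nonpos_right e2 ha0
  have hvY : v < s * a * (1 + y) := by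
    rw [← hYy]
    by_contra hc
    push Not at hc
    have e0 : 1.41421 * 1.618 ≤ s * a := mul_le_mul hs1.le ha1.le (by norm_num) (by linarith only [hs1])
    have e1 : s * a * 1 ≤ s * a * Y := mul_le_mul_of_nonneg_left hY (mul_nonneg hs0.le ha0.le)
    have e2 : 0 ≤ (v - s * a * Y) * v := mul_nonneg (by linarith only [hc]) (by linarith only [hc, e0, e1])
    have e3 : 0.3819 * 2.2881 ≤ (1 - A) * v :=
      mul_le_mul (by linarith only [ha2, hA]) (by linarith only [hc, e0, e1]) (by norm_num) (by linarith only [ha2, hA])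
    have e4 : 0 ≤ z * ((1 - A) * v - 2 * τ) := mul_nonneg hz (by linarith only [hτ1, e3])
    have e5 : 0 < τ * A * v := mul_pos (mul_pos hτ0 (by linarith only [ha1, hA])) (by linarith only [hc, e0, e1])
    have e6 : 0 ≤ a * y := mul_nonneg ha0.le hy
    linarith
  -- (Gz)
  have hGz : 2 * τ * (a - 1) * v + z * (v + s * a * (1 + y) - z - 2 * τ) ≤
      a ^ 2 * y ^ 2 + 2 * y := by
    have e1 : h * z = v ^ 2 - s * a * Y * v + a ^ 2 * y * (y + 2) := by
      rw [hzd, hyd]
      linear_combination -hN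
    have e2 : h * z = (A * v + s * (a * Y) - z) * z := by rw [← hh]
    have e3 : 2 * τ * (a - 1) * v + z * (v + s * a * (1 + y) - z - 2 * τ) -
        (a ^ 2 * y ^ 2 + 2 * y) =
        (v ^ 2 - s * a * Y * v + 2 * a * y + 2 * τ * A * v + z * ((1 - A) * v - 2 * τ)) := by
      rw [hYy, hA] at e2 ⊢
      rw [hYy] at e1
      linear_combination e1 - e2 + (2 * y) * ha
    linarith only [hG2, e3]
  have hX : (2 - a) * v + a * (1 + y) * r - 2 * τ ≤ v + s * a * (1 + y) - z - 2 * τ := by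
    have e1 : r * (a * Y) ≤ r * (s * h) := mul_le_mul_of_nonneg_left hP.le hr0.le
    have e2 : r * (s * h) = h := by rw [← mul_assoc, hr, one_mul]
    rw [e2, hh, hYy, hA] at e1
    linarith only [e1]
  exact r5_core ha ha1 ha2 (by linarith only [hs1]) hs4 hτ hr hv hy hz hvY hF hX hGz

/-- **the real inequality for `m1 = 6`, `m2 = 4`** (`j = 3`, `φ w ≥ 0`); the norm is not needed -/
theorem r64 {a s e h v Y : ℝ} (ha : a ^ 2 = 3) (ha0 : 0 < a) (hs : s ^ 2 = 2) (hs0 : 0 < s)
    (he : e + 1 / e = (a ^ 2 - 2) + s ^ 2) (he0 : 0 < e) (he1 : e ≤ 1) (hv : 1 ≤ v) (hY : 1 ≤ Y)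
    (hz : (a ^ 2 - 2) * v + s * (a * Y) - h = 0 ∨ 1 ≤ (a ^ 2 - 2) * v + s * (a * Y) - h)
    (hP : a * Y ≤ s * h)
    (hK : v ^ 2 ≤ h ^ 2 - s * h * (a * Y) + (a * Y) ^ 2 + a ^ 2 - 2 * a / (s + 1) * (h + a * Y)) :
    (s + 1) * (a + e * v) ≤ h + a * Y := by
  by_contra hcon
  push Not at hcon
  have ha1 : 1.732 < a := by
    by_contra hc
    have := mul_le_mul (not_lt.1 hc) (not_lt.1 hc) ha0.le (by norm_num : (0 : ℝ) ≤ 1.732)
    linarith only [ha, this]
  have ha2 : a < 1.7321 := by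
    by_contra hc
    have := mul_le_mul (not_lt.1 hc) (not_lt.1 hc) (by norm_num : (0 : ℝ) ≤ 1.7321) ha0.le
    linarith only [ha, this]
  have hs1 : 1.4142 < s := by
    by_contra hc
    have := mul_le_mul (not_lt.1 hc) (not_lt.1 hc) hs0.le (by norm_num : (0 : ℝ) ≤ 1.4142)
    linarith only [hs, this]
  have hs2 : s < 1.4143 := by
    by_contra hc
    have := mul_le_mul (not_lt.1 hc) (not_lt.1 hc) (by norm_num : (0 : ℝ) ≤ 1.4143) hs0.le
    linarith only [hs, this]
  have hA2 : a ^ 2 - 2 = 1 := by linarith only [ha]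
  rw [hA2] at he hz
  rw [hs] at he
  rw [one_mul] at hz
  have hK' : 2 * a / (s + 1) * (h + a * Y) = 2 * a * (s - 1) * (h + a * Y) := by
    have h0 : s + 1 ≠ 0 := by linarith only [hs1]
    have h1 : 1 / (s + 1) = s - 1 := by
      rw [div_eq_iff h0]
      linear_combination -hs
    have h2 : 2 * a / (s + 1) = 2 * a * (1 / (s + 1)) := by ring
    rw [h2, h1]
  rw [hK'] at hK
  obtain ⟨z, hzd⟩ : ∃ z, z = v + s * (a * Y) - h := ⟨_, rfl⟩
  rw [← hzd] at hz
  have hh : h = v + s * (a * Y) - z := by rw [hzd]; ring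
  obtain ⟨p, hpd⟩ : ∃ p, p = a * Y - a := ⟨_, rfl⟩
  have hp : 0 ≤ p := by
    have : a * 1 ≤ a * Y := mul_le_mul_of_nonneg_left hY ha0.le
    linarith only [hpd, this]
  have hYp : a * Y = a + p := by linarith only [hpd]
  rw [hYp] at hh hK hP hcon
  have hE : (s + 1) * e ≤ 1 := by
    have e1 : e ^ 2 - 3 * e + 1 = 0 := by
      have : (e + 1 / e) * e = (1 + 2) * e := by rw [he]
      rw [add_mul, one_div_mul_cancel he0.ne'] at this
      linarith only [this]
    have e2 : e ≤ 0.4 := by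
      by_contra hc
      push Not at hc
      have := mul_nonneg (by linarith only [hc] : 0 ≤ e - 0.4) (by linarith only [he1] : 0 ≤ 1 - e)
      linarith only [e1, hc, this]
    have := mul_le_mul (by linarith only [hs2] : s + 1 ≤ 2.4143) e2 he0.le (by norm_num)
    linarith only [this]
  have hD : (s + 1) * p < z := by
    have e1 : (s + 1) * e * v ≤ 1 * v := mul_le_mul_of_nonneg_right hE (by linarith only [hv])
    have e2 : z = v + s * (a + p) - h := by rw [hh]; ring
    linarith only [hcon, e1, e2]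
  rcases hz with hz | hz
  · rw [hz] at hD
    have := mul_nonneg (by linarith only [hs1] : 0 ≤ s + 1) hp
    linarith only [hD, this]
  obtain ⟨c, hc⟩ : ∃ c, c = (2 - s) * a + s * p := ⟨_, rfl⟩
  have hKc : (2 * z - c) * v ≤ z * (z - c) + p ^ 2 := by
    have e1 : (2 * z - c) * v - (z * (z - c) + p ^ 2) =
        v ^ 2 - (h ^ 2 - s * h * (a + p) + (a + p) ^ 2 + a ^ 2 - 2 * a * (s - 1) * (h + (a + p))) := by
      rw [hh, hc]
      linear_combination (-2 * a * (a + p)) * hs
    linarith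
  -- `p < (s - 1) z`
  have hpz : p < (s - 1) * z := by
    have e1 : (s - 1) * ((s + 1) * p) < (s - 1) * z := mul_lt_mul_of_pos_left hD (by linarith only [hs1])
    have e2 : (s - 1) * ((s + 1) * p) = p := by linear_combination p * hs
    linarith only [e1, e2]
  have hc0 : 0 < c := by
    rw [hc]
    have := mul_pos (by linarith only [hs2] : 0 < 2 - s) ha0
    have := mul_nonneg hs0.le hp
    linarith
  have hcz : 0 < 2 * z - c := by
    have g1 : s * p ≤ s * ((s - 1) * z) := mul_le_mul_of_nonneg_left hpz.le hs0.le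
    have g2 : s * ((s - 1) * z) = (2 - s) * z := by linear_combination z * hs
    have g3 : (2 - s) * a ≤ 0.5858 * 1.7321 :=
      mul_le_mul (by linarith only [hs1]) ha2.le ha0.le (by norm_num)
    have g4 : 1.4142 * z ≤ s * z := mul_le_mul_of_nonneg_right hs1.le (by linarith only [hz])
    rw [hc]
    linarith
  -- `P`
  have hP' : (z - a) * (z + a - s * (a + p)) ≤ 0 := by
    have e1 : 0 ≤ s * v + (a + p) - s * z := by
      have : s * h = s * v + 2 * (a + p) - s * z := by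
        rw [hh]
        linear_combination (a + p) * hs
      linarith only [hP, this]
    have e2 : 0 ≤ (2 * z - c) * (s * v + (a + p) - s * z) := mul_nonneg hcz.le e1
    have e3 : s * ((2 * z - c) * v) ≤ s * (z * (z - c) + p ^ 2) :=
      mul_le_mul_of_nonneg_left hKc hs0.le
    have e4 : (2 * z - c) * (s * v + (a + p) - s * z) =
        s * ((2 * z - c) * v) + (2 * z - c) * ((a + p) - s * z) := by ring
    have e5 : s * ((z - a) * (z + a - s * (a + p))) =
        -(s * (z * (z - c) + p ^ 2) + (2 * z - c) * ((a + p) - s * z)) := by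
      rw [hc]
      linear_combination ((a + p) * (a - z)) * hs
    have e6 : s * ((z - a) * (z + a - s * (a + p))) ≤ 0 := by linarith only [e2, e3, e5]
    exact nonpos_of_mul_nonpos_right e6 hs0
  rcases le_or_gt z a with hza | hza
  · have e1 : (2 * z - c) * 1 ≤ (2 * z - c) * v := mul_le_mul_of_nonneg_left hv hcz.le
    have e2 : 0 ≤ c * (z - 1) := mul_nonneg hc0.le (by linarith only [hz])
    have e3 : 1.01 ≤ c := by
      rw [hc]
      have g1 := mul_nonneg hs0.le hp
      have g2 : 0.5857 * 1.732 ≤ (2 - s) * a :=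
        mul_le_mul (by linarith only [hs2]) ha1.le (by norm_num) (by linarith only [hs2])
      linarith only [g1, g2]
    have e4 : p ^ 2 ≤ 0.172 * z ^ 2 := by
      have g1 : p ≤ 0.4143 * z := by
        have : (s - 1) * z ≤ 0.4143 * z := mul_le_mul_of_nonneg_right (by linarith only [hs2]) (by linarith only [hc0, hcz])
        linarith only [hpz, this]
      have g2 : p * p ≤ (0.4143 * z) * (0.4143 * z) := mul_le_mul g1 g1 hp (by linarith only [hc0, hcz])
      linarith only [g2, sq_nonneg z]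
    have e5 : 1.01 * (z - 1) ≤ c * (z - 1) := mul_le_mul_of_nonneg_right e3 (by linarith only [hz])
    have e6 : 0 ≤ (z - 1) * (1.7321 - z) := mul_nonneg (by linarith only [hz]) (by linarith only [ha2, hza])
    have e7 : 1.01 * (z - 1) ≤ z ^ 2 - 2 * z + 0.172 * z ^ 2 := by linarith only [hKc, e1, e4, e5]
    linarith only [ha2, hza, e6, e7]
  · have e1 : 0 < z + a - s * (a + p) := by
      have e2 : s * p < s * ((s - 1) * z) := mul_lt_mul_of_pos_left hpz hs0
      have e3 : s * ((s - 1) * z) = (2 - s) * z := by linear_combination z * hs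
      have e4 : (s - 1) * a < (s - 1) * z := mul_lt_mul_of_pos_left hza (by linarith only [hs1])
      linarith only [e2, e3, e4]
    have := mul_pos (by linarith only [hza] : 0 < z - a) e1
    linarith only [hP', this]

end Pool.Agent.Helper80.DY
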