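import Mathlib

/-!
# Block [E0] of MP_d13a5e_al, part A: inequalities between real numbers

`y = p u + q v + Y e` in the simple system `u = l_j`, `v = -l_(j-1)`, `e` of the fan around `t ∩ d2`;
`a = s_j`, `s = s_(j-1)`, `d = s_(j-2)`; `t = s u + a v`; `b' = -B(u,e)`, `b = -B(v,e)`, `c = -2 B(u,v)`.
The coefficient of `y` at `d2` is `a p - s q + (β' + 2 b s) Y`.
-/

set_option autoImplicit false

namespace Pool.Agent.Helper80.DY

/-- shift of `y` along `t` until the coefficient `p` is `p0` -/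
theorem shift {c b b' s a d p q Y p0 : ℝ} (had : a * d = s ^ 2 - 1) (hsum : a + d = c * s)
    (hs : 0 < s) (hda : d ≤ a)
    (hN : p ^ 2 + q ^ 2 + Y ^ 2 - c * p * q - 2 * b' * Y * p - 2 * b * Y * q = 1)
    (ht : s * (p - c / 2 * q - b' * Y) + a * (q - c / 2 * p - b * Y) ≤ 0)
    (hV : 0 < c / 2 * p - q + b * Y) (hp0 : p0 ≤ p) :
    ∃ V : ℝ, 0 < V ∧ 1 - p0 ^ 2 - Y ^ 2 + 2 * b' * Y * p0 + (c / 2 * p0 + b * Y) ^ 2 ≤ V ^ 2 ∧
      a * p - s * q = (a - d) / 2 * p0 - b * s * Y + s * V := by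
  obtain ⟨l, hl⟩ : ∃ l, l = (p - p0) / s := ⟨_, rfl⟩
  have hls : s * l = p - p0 := by rw [hl]; field_simp
  have hl0 : 0 ≤ l := by rw [hl]; exact div_nonneg (by linarith only [hp0]) hs.le
  have hp : p = p0 + s * l := by linarith only [hls]
  obtain ⟨q0, hq0⟩ : ∃ q0, q0 = q - a * l := ⟨_, rfl⟩
  have hq : q = q0 + a * l := by linarith only [hq0]
  have hd : d = c * s - a := by linarith only [hsum]
  have hT : s ^ 2 + a ^ 2 - c * s * a = 1 := by
    rw [hd] at had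
    linarith only [had]
  refine ⟨c / 2 * p0 + b * Y - q0, ?_, ?_, ?_⟩
  · have h1 : c / 2 * p0 + b * Y - q0 = (c / 2 * p - q + b * Y) + l * ((a - d) / 2) := by
      rw [hp, hq, hd]
      ring
    rw [h1]
    have h2 : 0 ≤ l * ((a - d) / 2) := mul_nonneg hl0 (by linarith only [hda])
    linarith only [hV, h2]
  · have h1 : p0 ^ 2 + q0 ^ 2 + Y ^ 2 - c * p0 * q0 - 2 * b' * Y * p0 - 2 * b * Y * q0 =
        1 - 2 * l * (s * (p - c / 2 * q - b' * Y) + a * (q - c / 2 * p - b * Y)) + l ^ 2 := by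
      rw [← hN, hp, hq]
      linear_combination (l ^ 2) * hT
    have h2 : 0 ≤ -(l * (s * (p - c / 2 * q - b' * Y) + a * (q - c / 2 * p - b * Y))) := by
      rw [neg_nonneg]
      exact mul_nonpos_of_nonneg_of_nonpos hl0 ht
    nlinarith only [h1, h2, sq_nonneg l]
  · rw [hp, hq, hd]
    ring

/-- the setting with `p0`, and the assumption `x2 < a + c` -/
theorem shift2 {c b b' s a d p q Y p0 β' : ℝ} (had : a * d = s ^ 2 - 1) (hsum : a + d = c * s)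
    (hs : 0 < s) (hda : d ≤ a)
    (hN : p ^ 2 + q ^ 2 + Y ^ 2 - c * p * q - 2 * b' * Y * p - 2 * b * Y * q = 1)
    (ht : s * (p - c / 2 * q - b' * Y) + a * (q - c / 2 * p - b * Y) ≤ 0)
    (hV : 0 < c / 2 * p - q + b * Y) (hp0 : p0 ≤ p)
    (hx : a * p - s * q + (β' + 2 * b * s) * Y < a + c) :
    0 < a + c - (a - d) / 2 * p0 - (β' + b * s) * Y ∧
      s ^ 2 * (1 - p0 ^ 2 - Y ^ 2 + 2 * b' * Y * p0 + (c / 2 * p0 + b * Y) ^ 2) <
        (a + c - (a - d) / 2 * p0 - (β' + b * s) * Y) ^ 2 := by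
  obtain ⟨V, hV0, hV2, he⟩ := shift had hsum hs hda hN ht hV hp0
  have h1 : s * V < a + c - (a - d) / 2 * p0 - (β' + b * s) * Y := by linarith only [hx, he]
  have h2 : 0 < s * V := mul_pos hs hV0
  refine ⟨by linarith only [h1, h2], ?_⟩
  have h3 : (s * V) ^ 2 < (a + c - (a - d) / 2 * p0 - (β' + b * s) * Y) ^ 2 := by
    apply pow_lt_pow_left₀ h1 h2.le (by norm_num)
  have h4 := mul_le_mul_of_nonneg_left hV2 (sq_nonneg s)
  calc _ ≤ s ^ 2 * V ^ 2 := h4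
    _ = (s * V) ^ 2 := by ring
    _ < _ := h3

/-- **case (i)**: `b, b' ≥ 1/2` -/
theorem case1 {c b b' s a d p q Y β' : ℝ} (had : a * d = s ^ 2 - 1) (hsum : a + d = c * s)
    (hs : c ≤ s) (hc : 1 < c) (hda : d ≤ a)
    (hN : p ^ 2 + q ^ 2 + Y ^ 2 - c * p * q - 2 * b' * Y * p - 2 * b * Y * q = 1)
    (ht : s * (p - c / 2 * q - b' * Y) + a * (q - c / 2 * p - b * Y) ≤ 0)
    (hV : 0 < c / 2 * p - q + b * Y) (hp : 1 ≤ p) (hY : 1 ≤ Y) (hb : 1 / 2 ≤ b) (hb' : 1 / 2 ≤ b')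
    (hβ : 1 ≤ β') : a + c ≤ a * p - s * q + (β' + 2 * b * s) * Y := by
  by_contra hcon
  rw [not_le] at hcon
  have hs0 : 0 < s := by linarith only [hs, hc]
  obtain ⟨h1, h2⟩ := shift2 had hsum hs0 hda hN ht hV hp hcon
  obtain ⟨T, hT⟩ : ∃ T, T = a + c - (a - d) / 2 * 1 - (β' + b * s) * Y := ⟨_, rfl⟩
  rw [← hT] at h1 h2
  have h3 : T ≤ (s / 2 + 1) * (c - Y) := by
    have e1 : T = c * s / 2 + c - (β' + b * s) * Y := by
      rw [hT, ← hsum]
      ring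
    have e2 : (1 + s / 2) * Y ≤ (β' + b * s) * Y := by
      apply mul_le_mul_of_nonneg_right _ (by linarith only [hY])
      have : 1 / 2 * s ≤ b * s := mul_le_mul_of_nonneg_right hb hs0.le
      linarith only [hβ, this]
    rw [e1]
    nlinarith only [e2]
  have h4 : 0 < c - Y := by
    by_contra h
    have := mul_nonpos_of_nonneg_of_nonpos (by linarith only [hs0] : 0 ≤ s / 2 + 1) (not_lt.1 h)
    linarith only [h1, h3, this]
  have h5 : T ^ 2 ≤ ((s / 2 + 1) * (c - Y)) ^ 2 := pow_le_pow_left₀ h1.le h3 2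
  -- lower bound for the left side
  have h6 : (c ^ 2 + 2 * c * Y - 3 * Y ^ 2 + 4 * Y) / 4 ≤
      1 - 1 ^ 2 - Y ^ 2 + 2 * b' * Y * 1 + (c / 2 * 1 + b * Y) ^ 2 := by
    have e1 : 1 / 2 * Y ≤ b * Y := mul_le_mul_of_nonneg_right hb (by linarith only [hY])
    have e2 : 1 / 2 * Y ≤ b' * Y := mul_le_mul_of_nonneg_right hb' (by linarith only [hY])
    have e3 : (c / 2 + Y / 2) ^ 2 ≤ (c / 2 * 1 + b * Y) ^ 2 :=
      pow_le_pow_left₀ (by linarith only [hc, hY]) (by linarith only [e1]) 2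
    nlinarith only [e2, e3]
  have h7 : s ^ 2 * ((c ^ 2 + 2 * c * Y - 3 * Y ^ 2 + 4 * Y) / 4) < (s / 2 + 1) ^ 2 * (c - Y) ^ 2 := by
    have := mul_le_mul_of_nonneg_left h6 (sq_nonneg s)
    calc _ ≤ _ := this
      _ < T ^ 2 := h2
      _ ≤ _ := h5
      _ = _ := by ring
  -- the polynomial inequality
  have key : (c + 2) ^ 2 * (c - Y) ^ 2 ≤ c ^ 2 * (c ^ 2 + 2 * c * Y - 3 * Y ^ 2 + 4 * Y) := by
    have e1 : (c - 1) * (c ^ 2 * (c ^ 2 + 2 * c * Y - 3 * Y ^ 2 + 4 * Y) - (c + 2) ^ 2 * (c - Y) ^ 2) =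
        (c - Y) * (4 * (c ^ 2 + c - 1)) + (Y - 1) * (4 * c ^ 3) +
          (c - 1) * ((c + 2) ^ 2 + 3 * c ^ 2) * ((Y - 1) * (c - Y)) := by ring
    have e2 : 0 ≤ (c - Y) * (4 * (c ^ 2 + c - 1)) := mul_nonneg h4.le (by nlinarith only [hc])
    have e3 : 0 ≤ (Y - 1) * (4 * c ^ 3) := mul_nonneg (by linarith only [hY]) (by positivity)
    have e4 : 0 ≤ (c - 1) * ((c + 2) ^ 2 + 3 * c ^ 2) * ((Y - 1) * (c - Y)) :=
      mul_nonneg (mul_nonneg (by linarith only [hc]) (by positivity)) (mul_nonneg (by linarith only [hY]) h4.le)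
    have e5 : 0 ≤ (c - 1) * (c ^ 2 * (c ^ 2 + 2 * c * Y - 3 * Y ^ 2 + 4 * Y) -
        (c + 2) ^ 2 * (c - Y) ^ 2) := by
      rw [e1]
      linarith only [e2, e3, e4]
    have e6 := nonneg_of_mul_nonneg_right e5 (by linarith only [hc])
    linarith only [e6]
  have h8 : c * (s + 2) ≤ (c + 2) * s := by nlinarith only [hs]
  have h9 : (c * (s + 2)) ^ 2 ≤ ((c + 2) * s) ^ 2 := pow_le_pow_left₀ (by positivity) h8 2
  have h10 : 0 ≤ (c - Y) ^ 2 := sq_nonneg _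
  have h11 := mul_le_mul_of_nonneg_right h9 h10
  have h12 := mul_le_mul_of_nonneg_left key (sq_nonneg s)
  have h13 : 0 < c ^ 2 := by positivity
  have h14 := mul_lt_mul_of_pos_left h7 h13
  nlinarith only [h11, h12, h14]

/-- **case (ii)**, `j = 4`: `b' = 0`, `b ≥ 1/2` -/
theorem case2a {c b s a d p q Y β' : ℝ} (had : a * d = s ^ 2 - 1) (hsum : a + d = c * s)
    (hs : s = c ^ 2 - 1) (hc : 3 ≤ c ^ 2) (hc0 : 0 < c) (hda : d ≤ a)
    (hN : p ^ 2 + q ^ 2 + Y ^ 2 - c * p * q - 2 * 0 * Y * p - 2 * b * Y * q = 1)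
    (ht : s * (p - c / 2 * q - 0 * Y) + a * (q - c / 2 * p - b * Y) ≤ 0)
    (hV : 0 < c / 2 * p - q + b * Y) (hp : 1 ≤ p) (hY : 1 ≤ Y) (hb : 1 / 2 ≤ b)
    (hβ : 2 * b ≤ β') : a + c ≤ a * p - s * q + (β' + 2 * b * s) * Y := by
  by_contra hcon
  rw [not_le] at hcon
  have hs0 : 0 < s := by rw [hs]; linarith only [hc]
  obtain ⟨h1, h2⟩ := shift2 had hsum hs0 hda hN ht hV hp hcon
  obtain ⟨T, hT⟩ : ∃ T, T = a + c - (a - d) / 2 * 1 - (β' + b * s) * Y := ⟨_, rfl⟩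
  rw [← hT] at h1 h2
  obtain ⟨u, hu⟩ : ∃ u, u = b * Y := ⟨_, rfl⟩
  have hYu : Y ≤ 2 * u := by
    have : 1 / 2 * Y ≤ b * Y := mul_le_mul_of_nonneg_right hb (by linarith only [hY])
    rw [hu]
    linarith only [this]
  have hu1 : 1 / 2 ≤ u := by linarith only [hY, hYu]
  have h3 : T ≤ (s + 2) * (c / 2 - u) := by
    have e1 : T = c * s / 2 + c - (β' + b * s) * Y := by
      rw [hT, ← hsum]
      ring
    have e2 : (2 * b + b * s) * Y ≤ (β' + b * s) * Y :=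
      mul_le_mul_of_nonneg_right (by linarith only [hβ]) (by linarith only [hY])
    rw [e1, hu]
    nlinarith only [e2]
  have h4 : 0 < c / 2 - u := by
    by_contra h
    have := mul_nonpos_of_nonneg_of_nonpos (by linarith only [hs0] : 0 ≤ s + 2) (not_lt.1 h)
    linarith only [h1, h3, this]
  have h5 : T ^ 2 ≤ ((s + 2) * (c / 2 - u)) ^ 2 := pow_le_pow_left₀ h1.le h3 2
  have h6 : (c / 2 - u) * (c / 2 + 3 * u) ≤
      1 - 1 ^ 2 - Y ^ 2 + 2 * 0 * Y * 1 + (c / 2 * 1 + b * Y) ^ 2 := by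
    rw [← hu]
    nlinarith only [pow_le_pow_left₀ (by linarith only [hY] : 0 ≤ Y) hYu 2]
  have h7 : s ^ 2 * ((c / 2 - u) * (c / 2 + 3 * u)) < (s + 2) ^ 2 * (c / 2 - u) ^ 2 := by
    have := mul_le_mul_of_nonneg_left h6 (sq_nonneg s)
    calc _ ≤ _ := this
      _ < T ^ 2 := h2
      _ ≤ _ := h5
      _ = _ := by ring
  have h8 : s ^ 2 * (c / 2 + 3 * u) < (s + 2) ^ 2 * (c / 2 - u) := by
    have e1 : (c / 2 - u) * (s ^ 2 * (c / 2 + 3 * u)) < (c / 2 - u) * ((s + 2) ^ 2 * (c / 2 - u)) := by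
      linarith only [h7]
    exact lt_of_mul_lt_mul_left e1 h4.le
  have hc1 : 1 < c := by nlinarith
  -- at `u = 1 / 2`
  have h9 : s ^ 2 * (c + 3) < (s + 2) ^ 2 * (c - 1) := by
    have e1 : s ^ 2 * (c + 3) ≤ 2 * (s ^ 2 * (c / 2 + 3 * u)) := by nlinarith only [hu1, sq_nonneg s]
    have e2 : 2 * ((s + 2) ^ 2 * (c / 2 - u)) ≤ (s + 2) ^ 2 * (c - 1) := by
      nlinarith only [hu1, sq_nonneg (s + 2)]
    linarith only [h8, e1, e2]
  have h10 : (s + 2) ^ 2 * (c - 1) ≤ s ^ 2 * (c + 3) := by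
    have e1 : s ^ 2 * (c + 3) - (s + 2) ^ 2 * (c - 1) = (c - 1) * (4 * (c ^ 3 - c - 1)) := by
      rw [hs]
      ring
    have e2 : 0 ≤ (c - 1) * (4 * (c ^ 3 - c - 1)) := by
      apply mul_nonneg (by linarith only [hc1])
      have : c * 3 ≤ c * c ^ 2 := mul_le_mul_of_nonneg_left hc hc0.le
      nlinarith only [h9, this]
    linarith only [e1, e2]
  linarith only [h9, h10]

/-- **case (ii)**, `j ≥ 5`: `b' = 0`, `b ≥ 1/2` -/
theorem case2b {c b s a d p q Y β' : ℝ} (had : a * d = s ^ 2 - 1) (hsum : a + d = c * s)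
    (hs0 : 0 < s) (hc0 : 0 < c) (hda : d ≤ a)
    (hN : p ^ 2 + q ^ 2 + Y ^ 2 - c * p * q - 2 * 0 * Y * p - 2 * b * Y * q = 1)
    (ht : s * (p - c / 2 * q - 0 * Y) + a * (q - c / 2 * p - b * Y) ≤ 0)
    (hV : 0 < c / 2 * p - q + b * Y) (hp : 1 ≤ p) (hY : 1 ≤ Y) (hb : 1 / 2 ≤ b)
    (hβ : 2 * b * c ≤ β') : a + c ≤ a * p - s * q + (β' + 2 * b * s) * Y := by
  by_contra hcon
  rw [not_le] at hcon
  obtain ⟨h1, h2⟩ := shift2 had hsum hs0 hda hN ht hV hp hcon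
  obtain ⟨T, hT⟩ : ∃ T, T = a + c - (a - d) / 2 * 1 - (β' + b * s) * Y := ⟨_, rfl⟩
  rw [← hT] at h1 h2
  have hbY : 1 / 2 ≤ b * Y := by
    have : 1 / 2 * 1 ≤ b * Y := mul_le_mul hb hY (by norm_num) (by linarith only [hb])
    linarith only [this]
  have h3 : T ≤ s * (c / 2 - b * Y) := by
    have e1 : T = c * s / 2 + c - (β' + b * s) * Y := by
      rw [hT, ← hsum]
      ring
    have e2 : (2 * b * c) * Y ≤ β' * Y := mul_le_mul_of_nonneg_right hβ (by linarith only [hY])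
    have e3 : c * (1 / 2) ≤ c * (b * Y) := mul_le_mul_of_nonneg_left hbY hc0.le
    rw [e1]
    nlinarith only [e2, e3]
  have h4 : 0 < c / 2 - b * Y := by
    by_contra h
    have := mul_nonpos_of_nonneg_of_nonpos hs0.le (not_lt.1 h)
    linarith only [h1, h3, this]
  have h5 : T ^ 2 ≤ (s * (c / 2 - b * Y)) ^ 2 := pow_le_pow_left₀ h1.le h3 2
  have h6 : (c / 2 - b * Y) ^ 2 ≤
      1 - 1 ^ 2 - Y ^ 2 + 2 * 0 * Y * 1 + (c / 2 * 1 + b * Y) ^ 2 := by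
    have e1 : 0 ≤ Y * (2 * b * c - Y) := by
      apply mul_nonneg (by linarith only [hY])
      have e0 : c * 1 ≤ c * (4 * b ^ 2) := mul_le_mul_of_nonneg_left (by nlinarith only [hb]) hc0.le
      have e2 : 2 * b * Y ≤ 2 * b * (2 * b * c) := by linarith only [h4, e0]
      have := le_of_mul_le_mul_left e2 (by linarith only [hb] : 0 < 2 * b)
      linarith only [this]
    nlinarith only [e1]
  have h7 := mul_le_mul_of_nonneg_left h6 (sq_nonneg s)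
  nlinarith only [h2, h5, h6]

/-- **case (iii)**, label 3: `b = 0`, `2 b' = 1` -/
theorem case3a {c s a d p q Y β' : ℝ} (had : a * d = s ^ 2 - 1) (hsum : a + d = c * s)
    (hs : 2 ≤ s) (hs2 : 1 + c ^ 2 ≤ s ^ 2) (hc : 3 ≤ c ^ 2) (hc0 : 0 < c) (hda : d ≤ a)
    (hN : p ^ 2 + q ^ 2 + Y ^ 2 - c * p * q - 2 * (1 / 2) * Y * p - 2 * 0 * Y * q = 1)
    (ht : s * (p - c / 2 * q - 1 / 2 * Y) + a * (q - c / 2 * p - 0 * Y) ≤ 0)
    (hV : 0 < c / 2 * p - q + 0 * Y) (hp : Y + 1 ≤ p) (hY : 1 ≤ Y)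
    (hβ : d ≤ β') : a + c ≤ a * p - s * q + (β' + 2 * 0 * s) * Y := by
  by_contra hcon
  rw [not_le] at hcon
  have hs0 : 0 < s := by linarith only [hs]
  obtain ⟨h1, h2⟩ := shift2 had hsum hs0 hda hN ht hV hp hcon
  obtain ⟨T, hT⟩ : ∃ T, T = a + c - (a - d) / 2 * (Y + 1) - (β' + 0 * s) * Y := ⟨_, rfl⟩
  rw [← hT] at h1 h2
  have h3 : T ≤ c * s * (1 - (Y + 1) / 2) + c := by
    have e2 : d * Y ≤ β' * Y := mul_le_mul_of_nonneg_right hβ (by linarith only [hY])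
    rw [hT, ← hsum]
    linarith only [e2]
  have h4 : T ≤ c := by
    have : 0 ≤ c * s * ((Y - 1) / 2) := mul_nonneg (by positivity) (by linarith only [hY])
    linarith only [h3, this]
  have h5 : T ^ 2 ≤ c ^ 2 := pow_le_pow_left₀ h1.le h4 2
  have hY2 : Y ≤ 2 := by
    by_contra h
    rw [not_le] at h
    have e1 : c * 1 ≤ c * (s * ((Y - 1) / 2)) := by
      apply mul_le_mul_of_nonneg_left _ hc0.le
      nlinarith only [hs, h]
    linarith only [h1, h3, e1]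
  have h6 : 3 / 4 + (c ^ 2 - 3) ≤ 1 - (Y + 1) ^ 2 - Y ^ 2 + 2 * (1 / 2) * Y * (Y + 1) +
      (c / 2 * (Y + 1) + 0 * Y) ^ 2 := by
    have e1 : 0 ≤ (c ^ 2 - 3) * ((Y + 1) ^ 2 / 4 - 1) := by
      apply mul_nonneg (by linarith only [hc])
      nlinarith only [hY]
    nlinarith only [hY, hY2, e1]
  have h7 : c ^ 2 ≤ (1 + c ^ 2) * (3 / 4 + (c ^ 2 - 3)) := by nlinarith only [hc]
  have h8 := mul_le_mul hs2 h6 (by linarith only [hc]) (sq_nonneg s)
  linarith only [h2, h5, h7, h8]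

/-- **case (iii)**, label at least 4: `b = 0`, `2 b' = μ`, `μ ^ 2 ≥ 2` -/
theorem case3b {c s a d p q Y β' μ : ℝ} (had : a * d = s ^ 2 - 1) (hsum : a + d = c * s)
    (hs0 : 0 < s) (hc : 3 ≤ c ^ 2) (hc0 : 0 < c) (hcd : c ≤ d) (hda : d ≤ a)
    (hN : p ^ 2 + q ^ 2 + Y ^ 2 - c * p * q - 2 * (μ / 2) * Y * p - 2 * 0 * Y * q = 1)
    (ht : s * (p - c / 2 * q - μ / 2 * Y) + a * (q - c / 2 * p - 0 * Y) ≤ 0)
    (hV : 0 < c / 2 * p - q + 0 * Y) (hp1 : 1 ≤ p) (hp : Y + 1 ≤ μ * p) (hY : 1 ≤ Y)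
    (hμ0 : 0 < μ) (hμ : 2 ≤ μ ^ 2) (hβ : μ * d ≤ β') :
    a + c ≤ a * p - s * q + (β' + 2 * 0 * s) * Y := by
  by_contra hcon
  rw [not_le] at hcon
  have hd0 : 0 < d := by linarith only [hc0, hcd]
  have hμ1 : 1 < μ := by nlinarith only [hμ0, hμ]
  rcases le_total μ (Y + 1) with hm | hm
  · obtain ⟨z, hz⟩ : ∃ z, z = (Y + 1) / μ := ⟨_, rfl⟩
    have hzμ : μ * z = Y + 1 := by rw [hz]; field_simp
    have hz1 : 1 ≤ z := by rw [hz, le_div_iff₀ hμ0]; linarith only [hm]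
    have hzp : z ≤ p := by rw [hz, div_le_iff₀ hμ0]; linarith only [hp]
    obtain ⟨h1, h2⟩ := shift2 had hsum hs0 hda hN ht hV hzp hcon
    obtain ⟨T, hT⟩ : ∃ T, T = a + c - (a - d) / 2 * z - (β' + 0 * s) * Y := ⟨_, rfl⟩
    rw [← hT] at h1 h2
    have h3 : T ≤ c * s * (1 - z / 2) := by
      have e2 : μ * d * Y ≤ β' * Y := mul_le_mul_of_nonneg_right hβ (by linarith only [hμ1, hm])
      have e3 : z ≤ μ * Y := by
        have e4 : μ * z ≤ μ * (μ * Y) := by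
          rw [hzμ]
          nlinarith only [hY, hμ]
        exact le_of_mul_le_mul_left e4 hμ0
      have e5 : d * z ≤ d * (μ * Y) := mul_le_mul_of_nonneg_left e3 hd0.le
      rw [hT, ← hsum]
      linarith only [hcd, e2, e5]
    have hz2 : z < 2 := by
      by_contra h
      have : c * s * (1 - z / 2) ≤ 0 :=
        mul_nonpos_of_nonneg_of_nonpos (by positivity) (by linarith only [not_lt.1 h])
      linarith only [h1, h3, this]
    have h5 : T ^ 2 ≤ (c * s * (1 - z / 2)) ^ 2 := pow_le_pow_left₀ h1.le h3 2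
    have h6 : 1 - z ^ 2 - Y ^ 2 + 2 * (μ / 2) * Y * z + (c / 2 * z + 0 * Y) ^ 2 =
        μ * z - z ^ 2 + c ^ 2 * z ^ 2 / 4 := by
      have : Y = μ * z - 1 := by linarith only [hzμ]
      rw [this]
      ring
    rw [h6] at h2
    have h7 : c ^ 2 * (1 - z / 2) ^ 2 ≤ μ * z - z ^ 2 + c ^ 2 * z ^ 2 / 4 := by
      have e1 : 0 ≤ (z - 1) * (2 - z) := mul_nonneg (by linarith only [hz1]) (by linarith only [hz2])
      have e2 : 3 * (z - 1) ≤ c ^ 2 * (z - 1) := mul_le_mul_of_nonneg_right hc (by linarith only [hz1])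
      nlinarith only [hμ1, hz2, e1, e2]
    have h8 := mul_le_mul_of_nonneg_left h7 (sq_nonneg s)
    nlinarith only [h2, h5, h8]
  · obtain ⟨h1, h2⟩ := shift2 had hsum hs0 hda hN ht hV hp1 hcon
    obtain ⟨T, hT⟩ : ∃ T, T = a + c - (a - d) / 2 * 1 - (β' + 0 * s) * Y := ⟨_, rfl⟩
    rw [← hT] at h1 h2
    have h3 : T ≤ c * s / 2 := by
      have e2 : μ * d * Y ≤ β' * Y := mul_le_mul_of_nonneg_right hβ (by linarith only [hY])
      have e3 : c ≤ μ * d * Y := by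
        have e4 : d * 1 ≤ d * (μ * Y) := by
          apply mul_le_mul_of_nonneg_left _ hd0.le
          nlinarith only [hY, hμ0, hμ]
        linarith only [hcd, e4]
      rw [hT, ← hsum]
      linarith only [e2, e3]
    have h5 : T ^ 2 ≤ (c * s / 2) ^ 2 := pow_le_pow_left₀ h1.le h3 2
    have h6 : c ^ 2 / 4 ≤ 1 - 1 ^ 2 - Y ^ 2 + 2 * (μ / 2) * Y * 1 + (c / 2 * 1 + 0 * Y) ^ 2 := by
      have e1 : 0 ≤ Y * (μ - Y) := mul_nonneg (by linarith only [hY]) (by linarith only [hm])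
      nlinarith only [e1]
    have h8 := mul_le_mul_of_nonneg_left h6 (sq_nonneg s)
    nlinarith only [h2, h5, h6]

/-- label 5, `j = 4`, `b1 = 0`: in the system of `l_3` -/
theorem case5a {c b p q Y : ℝ} (hc : c ^ 2 = c + 1) (hc0 : 0 < c)
    (hN : p ^ 2 + q ^ 2 + Y ^ 2 - c * p * q - 2 * b * Y * p = 1)
    (ht : c * (p - c / 2 * q - b * Y) + c * (q - c / 2 * p) ≤ 0)
    (hV : 0 < c / 2 * p - q) (hq : 1 ≤ q) (hY : 1 ≤ Y) (hb : 1 / 2 ≤ b) :
    c ≤ c * p - c * q + 2 * b * Y := by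
  by_contra hcon
  rw [not_le] at hcon
  have hc1 : 1.6 < c := by nlinarith only [hc, hc0]
  have hc2 : c < 1.62 := by nlinarith only [hc]
  obtain ⟨D, hD⟩ : ∃ D, D = p - q := ⟨_, rfl⟩
  obtain ⟨z, hz⟩ : ∃ z, z = b * Y := ⟨_, rfl⟩
  have hp : p = q + D := by linarith only [hD]
  have hz2 : Y ≤ 2 * z := by
    have : 1 / 2 * Y ≤ b * Y := mul_le_mul_of_nonneg_right hb (by linarith only [hY])
    rw [hz]
    linarith only [this]
  have hzh : 1 / 2 ≤ z := by linarith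
  -- the shift
  have hl : 0 ≤ (q - 1) * (2 - c) := mul_nonneg (by linarith only [hq]) (by linarith only [hc2])
  have ht' : (1 - c / 2) * (p + q) - z ≤ 0 := by
    have e1 : c * ((1 - c / 2) * (p + q) - z) ≤ 0 := by
      rw [hz]
      linarith only [ht]
    by_contra h
    rw [not_le] at h
    have := mul_pos hc0 h
    linarith only [e1, this]
  have hN0 : 0 ≤ (1 + D) * (1 + D - c - 2 * z) + Y ^ 2 := by
    have e1 : (1 + D) * (1 + D - c - 2 * z) + Y ^ 2 =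
        (p ^ 2 + q ^ 2 + Y ^ 2 - c * p * q - 2 * b * Y * p - 1) -
          2 * (q - 1) * ((1 - c / 2) * (p + q) - z) + (q - 1) * (2 - c) * (q - 1) := by
      rw [hz, hp]
      ring
    rw [e1, hN]
    have e2 : 0 ≤ (q - 1) * (-((1 - c / 2) * (p + q) - z)) := mul_nonneg (by linarith only [hq]) (by linarith only [ht'])
    have e3 : 0 ≤ (q - 1) * (2 - c) * (q - 1) := mul_nonneg hl (by linarith only [hq])
    linarith only [e2, e3]
  have hD1 : 2 * c - 3 < D := by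
    -- `q < (c/2) p`, `p = q + D`
    have e1 : (2 - c) * q < c * D := by rw [hp] at hV; linarith only [hV]
    have e2 : (2 - c) * 1 ≤ (2 - c) * q := mul_le_mul_of_nonneg_left hq (by linarith only [hc2])
    have e3 : c * (2 * c - 3) < c * D := by nlinarith only [hc, hl, e1]
    exact lt_of_mul_lt_mul_left e3 hc0.le
  have hD2 : D < 1 - 2 * z * (c - 1) := by
    have e1 : c * D + 2 * z < c := by
      rw [hD, hz]
      linarith only [hcon]
    have e2 : c * D < c * (1 - 2 * z * (c - 1)) := by nlinarith only [hb, hc1, hc2, hz, hp, hz2, hzh, hl, ht', hN0, hD1, e1]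
    exact lt_of_mul_lt_mul_left e2 hc0.le
  have hY2 : Y ^ 2 ≤ (2 * z) ^ 2 := pow_le_pow_left₀ (by linarith only [hY]) hz2 2
  -- the polynomial `(1+D)(c-1+2z-D) - 4 z^2` is positive on the triangle
  have hpos : 0 < (1 + D) * (c - 1 + 2 * z - D) - 4 * z ^ 2 := by
    nlinarith only [hcon, hc1, hD, hz, hzh, hD1, mul_pos (sub_pos.2 hD1) (sub_pos.2 hD2), mul_nonneg (sub_nonneg.2 hzh) (sub_pos.2 hD1).le,
      mul_nonneg (sub_nonneg.2 hzh) (sub_pos.2 hD2).le]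
  nlinarith only [hN0, hY2, hpos]

end Pool.Agent.Helper80.DY
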