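import Pool.Agent.Helper80.DY.E0A

/-!
# Block [E0] of MP_d13a5e_al, part B: more inequalities
-/

set_option autoImplicit false

namespace Pool.Agent.Helper80.DY

/-- label 5, `j = 4`, `bO = 0`: in the system of `l_3` -/
theorem case5b {c p q Y μ : ℝ} (hc : c ^ 2 = c + 1) (hc0 : 0 < c)
    (ht : c * (p - c / 2 * q) + c * (q - c / 2 * p - μ / 2 * Y) ≤ 0)
    (hV : c / 2 * q < p) (hq : 1 ≤ q) (hY : 1 ≤ Y) (hμ0 : 1 ≤ μ) (hμ : μ = 1 ∨ 2 ≤ μ ^ 2)
    (h3 : Y + 1 ≤ μ * q) : c ≤ c * p - c * q + μ * c * Y := by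
  by_contra hcon
  rw [not_le] at hcon
  have hc1 : 1.6 < c := by nlinarith
  have hc2 : c < 1.62 := by nlinarith
  have e1 : p - q + μ * Y < 1 := by
    have : c * (p - q + μ * Y) < c * 1 := by linarith
    exact lt_of_mul_lt_mul_left this hc0.le
  have e2 : (1 - c / 2) * (p + q) ≤ μ * Y / 2 := by
    have : c * ((1 - c / 2) * (p + q)) ≤ c * (μ * Y / 2) := by linarith
    exact le_of_mul_le_mul_left this hc0
  have e3 : μ * Y - 1 < (1 - c / 2) * q := by linarith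
  have e4 : (3 - c) * q < 2 * (μ * Y) := by
    have f1 : (1 - c / 2) * (c / 2 * q) < (1 - c / 2) * p :=
      mul_lt_mul_of_pos_left hV (by linarith)
    nlinarith
  have e5 : (3 - c) * (μ * Y - 1) < (2 - c) * (μ * Y) := by
    have f1 : (3 - c) * (μ * Y - 1) < (3 - c) * ((1 - c / 2) * q) :=
      mul_lt_mul_of_pos_left e3 (by linarith)
    have f2 : (1 - c / 2) * ((3 - c) * q) < (1 - c / 2) * (2 * (μ * Y)) :=
      mul_lt_mul_of_pos_left e4 (by linarith)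
    nlinarith
  have e6 : μ * Y < 3 - c := by linarith
  have e7 : μ * 1 ≤ μ * Y := mul_le_mul_of_nonneg_left hY (by linarith)
  rcases hμ with hμ | hμ
  · rw [hμ] at e4 e6 h3
    nlinarith
  · nlinarith

/-- `j = 3`, `b1 = 0`, steep case -/
theorem steep3 {c g w Y μ : ℝ} (hc : 2 ≤ c ^ 2) (hc0 : 0 < c)
    (hN : g ^ 2 + w ^ 2 + Y ^ 2 - c * g * w - μ * Y * w = 1)
    (hw3 : 0 ≤ c * w - g) (hg0 : 0 ≤ g) (hV : c / 2 * w < g) (hw : 1 ≤ w) (hY : 1 ≤ Y)
    (hY' : 1 ≤ μ * w - Y) (hμ : 1 ≤ μ) : μ ≤ w ∧ μ * c ≤ g := by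
  have hK : g * (c * w - g) ≤ w * (w - μ) := by
    have e1 : 0 ≤ (Y - 1) * (μ * w - Y - 1) := mul_nonneg (by linarith) (by linarith)
    nlinarith
  have hK0 : 0 ≤ g * (c * w - g) := mul_nonneg hg0 hw3
  have h1 : μ ≤ w := by
    by_contra h
    have := mul_neg_of_pos_of_neg (by linarith : 0 < w) (by linarith [not_le.1 h] : w - μ < 0)
    linarith
  refine ⟨h1, ?_⟩
  by_contra h
  rw [not_le] at h
  have e1 : w ≤ μ * c ^ 2 := by
    have f1 : c * w < 2 * (μ * c) := by linarith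
    have f2 : c * w < c * (2 * μ) := by linarith
    have f3 := lt_of_mul_lt_mul_left f2 hc0.le
    have f4 : μ * 2 ≤ μ * c ^ 2 := mul_le_mul_of_nonneg_left hc (by linarith)
    linarith
  have e2 : (w - μ) * (w - μ * c ^ 2) ≤ 0 :=
    mul_nonpos_of_nonneg_of_nonpos (by linarith) (by linarith)
  have e3 : 0 < (μ * c - g) * (μ * c - (c * w - g)) := mul_pos (by linarith) (by linarith)
  nlinarith

/-- `κ - τ` for `i = 3` -/
theorem final3 {c κ x2 y2 : ℝ} (hc : 2 ≤ c ^ 2) (hc0 : 0 < c) (hκ : 1 < κ * c)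
    (h : c ^ 2 + c ≤ x2 + y2) : 1 ≤ (κ - (c - 1) / (c ^ 2 - 1)) * (x2 + y2) := by
  have hc1 : 1 < c := by nlinarith
  have e1 : (c - 1) / (c ^ 2 - 1) = 1 / (c + 1) := by
    rw [div_eq_div_iff (by nlinarith) (by linarith)]
    ring
  rw [e1]
  have e2 : 1 / c < κ := by rw [div_lt_iff₀ hc0]; exact hκ
  have e3 : 1 / c - 1 / (c + 1) = 1 / (c * (c + 1)) := by
    field_simp
    ring
  have e4 : 1 / (c * (c + 1)) * (c ^ 2 + c) = 1 := by
    field_simp
  have e5 : 0 < 1 / (c * (c + 1)) := by positivity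
  calc (1 : ℝ) = 1 / (c * (c + 1)) * (c ^ 2 + c) := e4.symm
    _ ≤ 1 / (c * (c + 1)) * (x2 + y2) := mul_le_mul_of_nonneg_left h e5.le
    _ ≤ _ := mul_le_mul_of_nonneg_right (by linarith) (by nlinarith)

/-- `j = 3`, `b1 = 0`, steep case, `m_O = 3` -/
theorem final3' {c κ x2 y2 : ℝ} (hc : 2 ≤ c ^ 2) (hc0 : 0 < c) (hκ : 1 < κ * c)
    (hx : c ^ 2 ≤ x2) (hy : 1 ≤ κ * y2) : 1 ≤ (κ - (c - 1) / (c ^ 2 - 1)) * (x2 + y2) := by
  have hc1 : 1 < c := by nlinarith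
  have e1 : (c - 1) / (c ^ 2 - 1) = 1 / (c + 1) := by
    rw [div_eq_div_iff (by nlinarith) (by linarith)]
    ring
  rw [e1]
  have e2 : 1 / c < κ := by rw [div_lt_iff₀ hc0]; exact hκ
  have hκ0 : 0 < κ := lt_trans (by positivity) e2
  have e3 : 1 / c - 1 / (c + 1) = 1 / (c * (c + 1)) := by
    field_simp
    ring
  have e5 : 0 < 1 / (c * (c + 1)) := by positivity
  have e6 : c / (c + 1) ≤ (κ - 1 / (c + 1)) * x2 := by
    have f1 : c / (c + 1) = 1 / (c * (c + 1)) * c ^ 2 := by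
      field_simp
    rw [f1]
    exact mul_le_mul (by linarith) hx (by positivity) (by linarith)
  have e7 : 1 / (c + 1) ≤ (κ - 1 / (c + 1)) * y2 := by
    have f0 : 0 < y2 := by
      by_contra h
      have := mul_nonpos_of_nonneg_of_nonpos hκ0.le (not_lt.1 h)
      linarith
    have f1 : (κ - 1 / (c + 1)) * y2 = κ * y2 * (1 - 1 / (κ * (c + 1))) := by
      field_simp
    have f2 : 1 / (κ * (c + 1)) ≤ c / (c + 1) := by
      rw [div_le_div_iff₀ (by positivity) (by positivity)]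
      nlinarith
    have f3 : 1 / (c + 1) = 1 - c / (c + 1) := by
      field_simp
      ring
    have f4 : 0 ≤ 1 - 1 / (κ * (c + 1)) := by
      have : c / (c + 1) ≤ 1 := by rw [div_le_one (by linarith)]; linarith
      linarith
    rw [f1]
    calc 1 / (c + 1) ≤ 1 * (1 - 1 / (κ * (c + 1))) := by linarith
      _ ≤ _ := mul_le_mul_of_nonneg_right hy f4
  have e8 : c / (c + 1) + 1 / (c + 1) = 1 := by field_simp
  have e9 : (κ - 1 / (c + 1)) * (x2 + y2) = (κ - 1 / (c + 1)) * x2 + (κ - 1 / (c + 1)) * y2 := by ring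
  rw [e9]
  linarith

/-- `X2 ≥ a + c` and `d ≥ c` give the result -/
theorem final4 {c κ s a d X : ℝ} (had : a * d = s ^ 2 - 1) (hsum : a + d = c * s) (ha : 0 < a)
    (hs : 1 < s) (hcd : c ≤ d) (hκ : d < κ * s) (h : a + c ≤ X) (hX : 0 ≤ X) :
    1 ≤ (κ - (s - 1) / a) * X := by
  have hs0 : 0 < s := by linarith
  have e2 : d / s < κ := by rw [div_lt_iff₀ hs0]; exact hκ
  have e3 : d / s - (s - 1) / a = (s - 1) / (a * s) := by
    field_simp
    linear_combination had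
  have e5 : 0 < (s - 1) / (a * s) := div_pos (by linarith) (by positivity)
  have e4 : 1 ≤ (s - 1) / (a * s) * (a + c) := by
    rw [div_mul_eq_mul_div, le_div_iff₀ (by positivity)]
    -- `a s ≤ (s - 1) (a + c)`
    nlinarith
  calc (1 : ℝ) ≤ (s - 1) / (a * s) * (a + c) := e4
    _ ≤ (s - 1) / (a * s) * X := mul_le_mul_of_nonneg_left h e5.le
    _ ≤ _ := mul_le_mul_of_nonneg_right (by linarith) hX

/-- beyond the vertex `t ∩ d2` (finite label), `x' = d1` -/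
theorem beyond {b1 b2 bO g x1 x2 : ℝ} (hb1 : b1 = 0 ∨ 1 / 2 ≤ b1) (hbO : bO = 0 ∨ 1 / 2 ≤ bO)
    (hb2 : 1 / 2 ≤ b2) (hl : 2 * b2 = 1 ∨ 2 ≤ (2 * b2) ^ 2)
    (hN : g ^ 2 + x1 ^ 2 + x2 ^ 2 - 2 * b1 * g * x1 - 2 * b2 * g * x2 - 2 * bO * x1 * x2 = 1)
    (hx1 : 1 ≤ x1) (hx2 : 1 ≤ x2) (hx1' : 1 ≤ 2 * b1 * g + 2 * bO * x2 - x1)
    (ht : g ≤ b1 * x1 + b2 * x2) (hκ : 2 * b2 * x2 < g)
    (hw : bO = 0 → 2 * b2 = 1 → 1 ≤ g - x2) : 1 < g - b2 * x2 := by
  by_contra hcon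
  rw [not_lt] at hcon
  obtain ⟨q, hq⟩ : ∃ q, q = g - b2 * x2 := ⟨_, rfl⟩
  rw [← hq] at hcon
  have hbx : 0 < b2 * x2 := mul_pos (by linarith) (by linarith)
  have hq1 : b2 * x2 < q := by linarith
  have hqq : q ^ 2 ≤ q := by nlinarith
  have hbx1 : b2 * x2 < 1 := by linarith
  -- the norm
  have h1 : 2 * b1 * g + 2 * bO * x2 ≤ q ^ 2 + (1 - b2 ^ 2) * x2 ^ 2 := by
    have e1 : 0 ≤ (x1 - 1) * (2 * b1 * g + 2 * bO * x2 - x1 - 1) :=
      mul_nonneg (by linarith) (by linarith)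
    have e2 : q ^ 2 + (1 - b2 ^ 2) * x2 ^ 2 = g ^ 2 + x2 ^ 2 - 2 * b2 * g * x2 := by
      rw [hq]
      ring
    rw [e2]
    nlinarith
  have hg : g = q + b2 * x2 := by linarith
  have hg0 : 0 < g := by linarith
  rcases hb1 with hb1 | hb1
  · rw [hb1] at ht
    linarith
  · have h2 : g ≤ 2 * b1 * g := by
      have := mul_le_mul_of_nonneg_right hb1 hg0.le
      linarith
    rcases hbO with hbO | hbO
    · rw [hbO] at h1
      have h3 : b2 * x2 ≤ (1 - b2 ^ 2) * x2 ^ 2 := by linarith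
      have h4 : b2 ≤ (1 - b2 ^ 2) * x2 := by
        have : x2 * b2 ≤ x2 * ((1 - b2 ^ 2) * x2) := by linarith
        exact le_of_mul_le_mul_left this (by linarith)
      have h5 : 2 * b2 ^ 2 < 1 := by
        have e0 : 0 < 1 - b2 ^ 2 := by
          by_contra h
          have := mul_nonpos_of_nonpos_of_nonneg (not_lt.1 h) (by linarith : 0 ≤ x2)
          linarith
        have e1 : b2 * b2 ≤ b2 * ((1 - b2 ^ 2) * x2) := mul_le_mul_of_nonneg_left h4 (by linarith)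
        have e2 : (1 - b2 ^ 2) * (b2 * x2) < (1 - b2 ^ 2) * 1 := mul_lt_mul_of_pos_left hbx1 e0
        nlinarith
      rcases hl with hl | hl
      · have h6 := hw hbO hl
        have h7 : b2 = 1 / 2 := by linarith
        rw [h7] at hq
        linarith
      · nlinarith
    · have h3 : x2 ≤ 2 * bO * x2 := by
        have := mul_le_mul_of_nonneg_right hbO (by linarith : 0 ≤ x2)
        linarith
      have h4 : (1 + b2) * x2 ≤ (1 - b2 ^ 2) * x2 ^ 2 := by linarith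
      have h5 : 1 ≤ (1 - b2) * x2 := by
        have : (1 + b2) * x2 * 1 ≤ (1 + b2) * x2 * ((1 - b2) * x2) := by linarith
        exact le_of_mul_le_mul_left this (mul_pos (by linarith) (by linarith))
      have h6 : b2 * x2 < (1 - b2) * x2 := by linarith
      have h7 := lt_of_mul_lt_mul_right h6 (by linarith : 0 ≤ x2)
      linarith

end Pool.Agent.Helper80.DY
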