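import Pool.Agent.Helper80.DY.E0B
import Pool.Agent.Helper62.DY.CaseI

/-!
# Block [E0] of MP_d13a5e_al, part C: the fan of the vertex `t ∩ d2`

`x = g t + x1 d1 + x2 d2` has the coordinates `w_(k-1), w_k, x1` in the simple system `l_k, -l_(k-1), e_k`.
-/

set_option autoImplicit false

namespace Pool.Agent.Helper80.DY

open Pool.Agent.Helper62.DY
open _root_.DY (Z1 sq)

/-- `-B(l_k, e_k)` -/
def fb (b1 bO : ℝ) (k : ℕ) : ℝ := if k % 2 = 1 then bO else b1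

theorem fb_zero (b1 bO : ℝ) : fb b1 bO 0 = b1 := by simp [fb]

theorem fb_one (b1 bO : ℝ) : fb b1 bO 1 = bO := by simp [fb]

theorem fb_add (b1 bO : ℝ) (k : ℕ) : fb b1 bO (k + 2) = fb b1 bO k := by
  unfold fb
  have : (k + 2) % 2 = k % 2 := by omega
  rw [this]

theorem fb_two (b1 bO : ℝ) : fb b1 bO 2 = b1 := by rw [fb_add, fb_zero]

theorem fb_three (b1 bO : ℝ) : fb b1 bO 3 = bO := by rw [fb_add, fb_one]

theorem fb_even (b1 bO : ℝ) {k : ℕ} (hk : k % 2 = 0) : fb b1 bO k = b1 := by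
  unfold fb
  rw [if_neg (by omega)]

theorem fb_odd (b1 bO : ℝ) {k : ℕ} (hk : k % 2 = 1) : fb b1 bO k = bO := by
  unfold fb
  rw [if_pos hk]

/-- the coordinates in the fan -/
def fw (b1 b2 bO Y w0 w1 : ℝ) : ℕ → ℝ
  | 0 => w0
  | 1 => w1
  | (k + 2) => 2 * b2 * fw b1 b2 bO Y w0 w1 (k + 1) + 2 * fb b1 bO (k + 1) * Y - fw b1 b2 bO Y w0 w1 k

/-- the coefficient of `e_k` at `d2` -/
def fD (b1 b2 bO : ℝ) : ℕ → ℝ
  | 0 => 0
  | (k + 1) => fD b1 b2 bO k + 2 * fb b1 bO k * sq b2 k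

theorem fw_succ (b1 b2 bO Y w0 w1 : ℝ) (k : ℕ) : fw b1 b2 bO Y w0 w1 (k + 2) =
    2 * b2 * fw b1 b2 bO Y w0 w1 (k + 1) + 2 * fb b1 bO (k + 1) * Y - fw b1 b2 bO Y w0 w1 k := rfl

theorem fD_succ (b1 b2 bO : ℝ) (k : ℕ) :
    fD b1 b2 bO (k + 1) = fD b1 b2 bO k + 2 * fb b1 bO k * sq b2 k := rfl

section fan

variable {b1 b2 bO g x1 x2 : ℝ} {R : ℝ → ℝ → ℝ → Prop}

theorem fw_mem (h : RT b1 b2 bO R) (hx : R g x1 x2) (k : ℕ) :
    (k % 2 = 0 → R (fw b1 b2 bO x1 x2 g (k + 1)) x1 (fw b1 b2 bO x1 x2 g k)) ∧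
      (k % 2 = 1 → R (fw b1 b2 bO x1 x2 g k) x1 (fw b1 b2 bO x1 x2 g (k + 1))) := by
  induction k with
  | zero => exact ⟨fun _ => hx, fun h => by omega⟩
  | succ k ih =>
    constructor
    · intro hk
      have h1 := h.r0 _ _ _ (ih.2 (by omega))
      have e1 : fw b1 b2 bO x1 x2 g (k + 1 + 1) =
          2 * b1 * x1 + 2 * b2 * fw b1 b2 bO x1 x2 g (k + 1) - fw b1 b2 bO x1 x2 g k := by
        have := fw_succ b1 b2 bO x1 x2 g k
        rw [fb_even b1 bO hk] at this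
        have e2 : k + 1 + 1 = k + 2 := rfl
        rw [e2, this]
        ring
      rw [e1]
      exact h1
    · intro hk
      have h1 := h.r2 _ _ _ (ih.1 (by omega))
      have e1 : fw b1 b2 bO x1 x2 g (k + 1 + 1) =
          2 * b2 * fw b1 b2 bO x1 x2 g (k + 1) + 2 * bO * x1 - fw b1 b2 bO x1 x2 g k := by
        have := fw_succ b1 b2 bO x1 x2 g k
        rw [fb_odd b1 bO hk] at this
        have e2 : k + 1 + 1 = k + 2 := rfl
        rw [e2, this]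
      rw [e1]
      exact h1

theorem fw_z1 (h : RT b1 b2 bO R) (hx : R g x1 x2) (hx1 : 0 < x1) (k : ℕ) :
    Z1 (fw b1 b2 bO x1 x2 g k) := by
  obtain ⟨h1, h2⟩ := fw_mem h hx k
  rcases Nat.mod_two_eq_zero_or_one k with hk | hk
  · exact (h.z1 (h1 hk) hx1).2.2
  · exact (h.z1 (h2 hk) hx1).1

theorem fw_nn (h : RT b1 b2 bO R) (hx : R g x1 x2) (hx1 : 0 < x1) (k : ℕ) :
    0 ≤ fw b1 b2 bO x1 x2 g k := by
  rcases fw_z1 h hx hx1 k with h1 | h1 <;> linarith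

/-- reflection in `e_k` -/
theorem fw_refl (h : RT b1 b2 bO R) (hx : R g x1 x2) (k : ℕ) :
    (k % 2 = 0 → R (fw b1 b2 bO x1 x2 g (k + 1)) (2 * fb b1 bO k * fw b1 b2 bO x1 x2 g (k + 1) +
      2 * fb b1 bO (k + 1) * fw b1 b2 bO x1 x2 g k - x1) (fw b1 b2 bO x1 x2 g k)) ∧
    (k % 2 = 1 → R (fw b1 b2 bO x1 x2 g k) (2 * fb b1 bO k * fw b1 b2 bO x1 x2 g (k + 1) +
      2 * fb b1 bO (k + 1) * fw b1 b2 bO x1 x2 g k - x1) (fw b1 b2 bO x1 x2 g (k + 1))) := by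
  obtain ⟨h1, h2⟩ := fw_mem h hx k
  constructor
  · intro hk
    have h3 := h.r1 _ _ _ (h1 hk)
    rw [fb_even b1 bO hk, fb_odd b1 bO (by omega : (k + 1) % 2 = 1)]
    exact h3
  · intro hk
    have h3 := h.r1 _ _ _ (h2 hk)
    rw [fb_odd b1 bO hk, fb_even b1 bO (by omega : (k + 1) % 2 = 0)]
    have e1 : 2 * bO * fw b1 b2 bO x1 x2 g (k + 1) + 2 * b1 * fw b1 b2 bO x1 x2 g k - x1 =
        2 * b1 * fw b1 b2 bO x1 x2 g k + 2 * bO * fw b1 b2 bO x1 x2 g (k + 1) - x1 := by ring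
    rw [e1]
    exact h3

/-- if a neighbour is positive then the reflected coefficient is nonnegative -/
theorem fw_refl_z1 (h : RT b1 b2 bO R) (hx : R g x1 x2) (k : ℕ)
    (hw : 0 < fw b1 b2 bO x1 x2 g (k + 1)) :
    Z1 (2 * fb b1 bO k * fw b1 b2 bO x1 x2 g (k + 1) +
      2 * fb b1 bO (k + 1) * fw b1 b2 bO x1 x2 g k - x1) := by
  obtain ⟨h1, h2⟩ := fw_refl h hx k
  rcases Nat.mod_two_eq_zero_or_one k with hk | hk
  · exact (h.z0 (h1 hk) hw).2.1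
  · exact (h.z2 (h2 hk) hw).2.1

/-- if the reflected coefficient is negative then the neighbours are zero -/
theorem fw_refl_neg (h : RT b1 b2 bO R) (hx : R g x1 x2) (hx1 : 0 < x1) (k : ℕ)
    (hneg : 2 * fb b1 bO k * fw b1 b2 bO x1 x2 g (k + 1) +
      2 * fb b1 bO (k + 1) * fw b1 b2 bO x1 x2 g k - x1 < 0) :
    fw b1 b2 bO x1 x2 g k = 0 ∧ fw b1 b2 bO x1 x2 g (k + 1) = 0 := by
  obtain ⟨h1, h2⟩ := fw_refl h hx k
  have n0 := fw_nn h hx hx1 k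
  have n1 := fw_nn h hx hx1 (k + 1)
  have key : ∀ u v z : ℝ, R u z v → z < 0 → 0 ≤ u → 0 ≤ v → u = 0 ∧ v = 0 := by
    intro u v z hr hz hu hv
    rcases h.z _ _ _ hr with ⟨-, b, -⟩ | ⟨a, -, c⟩
    · exfalso
      rcases b with b | b <;> linarith
    · constructor
      · rcases a with a | a <;> linarith
      · rcases c with c | c <;> linarith
  rcases Nat.mod_two_eq_zero_or_one k with hk | hk
  · obtain ⟨a, b⟩ := key _ _ _ (h1 hk) hneg n1 n0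
    exact ⟨b, a⟩
  · exact key _ _ _ (h2 hk) hneg n0 n1

/-- the norm -/
theorem fw_norm (h : RT b1 b2 bO R) (hx : R g x1 x2) (k : ℕ) :
    fw b1 b2 bO x1 x2 g k ^ 2 + fw b1 b2 bO x1 x2 g (k + 1) ^ 2 + x1 ^ 2 -
      2 * b2 * fw b1 b2 bO x1 x2 g k * fw b1 b2 bO x1 x2 g (k + 1) -
      2 * fb b1 bO (k + 1) * x1 * fw b1 b2 bO x1 x2 g k -
      2 * fb b1 bO k * x1 * fw b1 b2 bO x1 x2 g (k + 1) = 1 := by
  obtain ⟨h1, h2⟩ := fw_mem h hx k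
  rcases Nat.mod_two_eq_zero_or_one k with hk | hk
  · have h3 := h.n _ _ _ (h1 hk)
    rw [fb_even b1 bO hk, fb_odd b1 bO (by omega : (k + 1) % 2 = 1)]
    linear_combination h3
  · have h3 := h.n _ _ _ (h2 hk)
    rw [fb_odd b1 bO hk, fb_even b1 bO (by omega : (k + 1) % 2 = 0)]
    linear_combination h3

end fan

section alg

variable (b1 b2 bO g x1 x2 g' y1 y2 : ℝ)

/-- `B(t, x)` -/
theorem fw_t (k : ℕ) :
    sq b2 k * (fw b1 b2 bO x1 x2 g k - b2 * fw b1 b2 bO x1 x2 g (k + 1) - fb b1 bO (k + 1) * x1) +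
      sq b2 (k + 1) * (fw b1 b2 bO x1 x2 g (k + 1) - b2 * fw b1 b2 bO x1 x2 g k - fb b1 bO k * x1) =
      g - b1 * x1 - b2 * x2 := by
  induction k with
  | zero =>
    rw [fb_zero, sq_zero]
    have e1 : sq b2 (0 + 1) = 1 := rfl
    have e2 : fw b1 b2 bO x1 x2 g (0 + 1) = g := rfl
    have e3 : fw b1 b2 bO x1 x2 g 0 = x2 := rfl
    rw [e1, e2, e3]
    ring
  | succ k ih =>
    rw [← ih]
    have e1 : k + 1 + 1 = k + 2 := rfl
    rw [e1, fb_add, fw_succ, sq_rec]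
    ring

/-- the coefficient at `d2` -/
theorem fw_x2 (k : ℕ) :
    sq b2 (k + 1) * fw b1 b2 bO x1 x2 g k - sq b2 k * fw b1 b2 bO x1 x2 g (k + 1) +
      fD b1 b2 bO (k + 1) * x1 = x2 := by
  induction k with
  | zero =>
    have e1 : sq b2 (0 + 1) = 1 := rfl
    have e2 : fw b1 b2 bO x1 x2 g (0 + 1) = g := rfl
    have e3 : fw b1 b2 bO x1 x2 g 0 = x2 := rfl
    rw [e1, e2, e3, fD_succ, sq_zero]
    have e4 : fD b1 b2 bO 0 = 0 := rfl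
    rw [e4]
    ring
  | succ k ih =>
    have e1 : k + 1 + 1 = k + 2 := rfl
    have e2 : fD b1 b2 bO (k + 2) = fD b1 b2 bO (k + 1) + 2 * fb b1 bO (k + 1) * sq b2 (k + 1) := rfl
    rw [e1, e2, fw_succ, sq_rec]
    linear_combination ih

/-- `w_k - w_(k+2) = 2 B(x, l_(k+1))` -/
theorem fw_diff (k : ℕ) :
    fw b1 b2 bO x1 x2 g k - fw b1 b2 bO x1 x2 g (k + 2) =
      2 * (sq b2 (k + 1) * (x2 - b2 * g - bO * x1) + sq b2 k * (g - b1 * x1 - b2 * x2)) ∧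
    fw b1 b2 bO x1 x2 g (k + 1) - fw b1 b2 bO x1 x2 g (k + 3) =
      2 * (sq b2 (k + 2) * (x2 - b2 * g - bO * x1) + sq b2 (k + 1) * (g - b1 * x1 - b2 * x2)) := by
  induction k with
  | zero =>
    have s1 : sq b2 (0 + 1) = 1 := rfl
    have s2 : sq b2 (0 + 2) = 2 * b2 := by rw [sq_rec, s1, sq_zero]; ring
    have e1 : fw b1 b2 bO x1 x2 g (0 + 1) = g := rfl
    have e0 : fw b1 b2 bO x1 x2 g 0 = x2 := rfl
    have e2 : fw b1 b2 bO x1 x2 g (0 + 2) = 2 * b2 * g + 2 * bO * x1 - x2 := by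
      rw [fw_succ, e1, e0]
      have : fb b1 bO (0 + 1) = bO := fb_one b1 bO
      rw [this]
    have e3 : fw b1 b2 bO x1 x2 g (0 + 3) =
        2 * b2 * (2 * b2 * g + 2 * bO * x1 - x2) + 2 * b1 * x1 - g := by
      have : fw b1 b2 bO x1 x2 g (0 + 3) = 2 * b2 * fw b1 b2 bO x1 x2 g (0 + 2) +
        2 * fb b1 bO 2 * x1 - fw b1 b2 bO x1 x2 g (0 + 1) := rfl
      rw [this, e2, e1, fb_two]
    rw [s1, s2, e1, e0, e2, e3, sq_zero]
    constructor <;> ring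
  | succ k ih =>
    obtain ⟨i1, i2⟩ := ih
    refine ⟨i2, ?_⟩
    have a1 : fw b1 b2 bO x1 x2 g (k + 2) = 2 * b2 * fw b1 b2 bO x1 x2 g (k + 1) +
      2 * fb b1 bO (k + 1) * x1 - fw b1 b2 bO x1 x2 g k := rfl
    have a2 : fw b1 b2 bO x1 x2 g (k + 4) = 2 * b2 * fw b1 b2 bO x1 x2 g (k + 3) +
      2 * fb b1 bO (k + 1) * x1 - fw b1 b2 bO x1 x2 g (k + 2) := by
      have : fw b1 b2 bO x1 x2 g (k + 4) = 2 * b2 * fw b1 b2 bO x1 x2 g (k + 3) +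
        2 * fb b1 bO (k + 3) * x1 - fw b1 b2 bO x1 x2 g (k + 2) := rfl
      rw [this]
      have e : fb b1 bO (k + 3) = fb b1 bO (k + 1) := fb_add b1 bO (k + 1)
      rw [e]
    have a3 : sq b2 (k + 3) = 2 * b2 * sq b2 (k + 2) - sq b2 (k + 1) := rfl
    have a4 : sq b2 (k + 2) = 2 * b2 * sq b2 (k + 1) - sq b2 k := rfl
    show fw b1 b2 bO x1 x2 g (k + 2) - fw b1 b2 bO x1 x2 g (k + 4) =
      2 * (sq b2 (k + 3) * (x2 - b2 * g - bO * x1) + sq b2 (k + 2) * (g - b1 * x1 - b2 * x2))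
    linear_combination a1 - a2 + (2 * b2) * i2 - i1 - 2 * (x2 - b2 * g - bO * x1) * a3 -
      2 * (g - b1 * x1 - b2 * x2) * a4

/-- the bilinear form -/
theorem fw_B (k : ℕ) :
    fw b1 b2 bO x1 x2 g k * fw b1 b2 bO y1 y2 g' k +
      fw b1 b2 bO x1 x2 g (k + 1) * fw b1 b2 bO y1 y2 g' (k + 1) + x1 * y1 -
      b2 * (fw b1 b2 bO x1 x2 g k * fw b1 b2 bO y1 y2 g' (k + 1) +
        fw b1 b2 bO x1 x2 g (k + 1) * fw b1 b2 bO y1 y2 g' k) -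
      fb b1 bO (k + 1) * (x1 * fw b1 b2 bO y1 y2 g' k + y1 * fw b1 b2 bO x1 x2 g k) -
      fb b1 bO k * (x1 * fw b1 b2 bO y1 y2 g' (k + 1) + y1 * fw b1 b2 bO x1 x2 g (k + 1)) =
    g * g' + x1 * y1 + x2 * y2 - b1 * (g * y1 + g' * x1) - b2 * (g * y2 + g' * x2) -
      bO * (x1 * y2 + x2 * y1) := by
  induction k with
  | zero =>
    have e1 : fw b1 b2 bO x1 x2 g (0 + 1) = g := rfl
    have e0 : fw b1 b2 bO x1 x2 g 0 = x2 := rfl
    have e1' : fw b1 b2 bO y1 y2 g' (0 + 1) = g' := rfl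
    have e0' : fw b1 b2 bO y1 y2 g' 0 = y2 := rfl
    have f1 : fb b1 bO (0 + 1) = bO := fb_one b1 bO
    rw [e1, e0, e1', e0', fb_zero, f1]
    ring
  | succ k ih =>
    rw [← ih]
    have e1 : k + 1 + 1 = k + 2 := rfl
    rw [e1, fb_add, fw_succ, fw_succ]
    ring

/-- the slopes -/
theorem fw_slope {κ : ℝ} (hκ : g * y1 - g' * x1 = κ * (x2 * y1 - x1 * y2)) (k : ℕ) :
    fw b1 b2 bO x1 x2 g (k + 1) * y1 - fw b1 b2 bO y1 y2 g' (k + 1) * x1 =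
      (x2 * y1 - x1 * y2) * (κ * sq b2 (k + 1) - sq b2 k) ∧
    fw b1 b2 bO x1 x2 g (k + 2) * y1 - fw b1 b2 bO y1 y2 g' (k + 2) * x1 =
      (x2 * y1 - x1 * y2) * (κ * sq b2 (k + 2) - sq b2 (k + 1)) := by
  induction k with
  | zero =>
    have s1 : sq b2 (0 + 1) = 1 := rfl
    have s2 : sq b2 (0 + 2) = 2 * b2 := by rw [sq_rec, s1, sq_zero]; ring
    have e1 : fw b1 b2 bO x1 x2 g (0 + 1) = g := rfl
    have e0 : fw b1 b2 bO x1 x2 g 0 = x2 := rfl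
    have e1' : fw b1 b2 bO y1 y2 g' (0 + 1) = g' := rfl
    have e0' : fw b1 b2 bO y1 y2 g' 0 = y2 := rfl
    rw [fw_succ, fw_succ, s2, s1, e1, e1', e0, e0', sq_zero]
    constructor
    · linarith
    · linear_combination (2 * b2) * hκ
  | succ k ih =>
    obtain ⟨i1, i2⟩ := ih
    refine ⟨i2, ?_⟩
    have a1 : fw b1 b2 bO x1 x2 g (k + 3) = 2 * b2 * fw b1 b2 bO x1 x2 g (k + 2) +
      2 * fb b1 bO (k + 2) * x1 - fw b1 b2 bO x1 x2 g (k + 1) := rfl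
    have a2 : fw b1 b2 bO y1 y2 g' (k + 3) = 2 * b2 * fw b1 b2 bO y1 y2 g' (k + 2) +
      2 * fb b1 bO (k + 2) * y1 - fw b1 b2 bO y1 y2 g' (k + 1) := rfl
    have a3 : sq b2 (k + 3) = 2 * b2 * sq b2 (k + 2) - sq b2 (k + 1) := rfl
    have a4 : sq b2 (k + 2) = 2 * b2 * sq b2 (k + 1) - sq b2 k := rfl
    show fw b1 b2 bO x1 x2 g (k + 3) * y1 - fw b1 b2 bO y1 y2 g' (k + 3) * x1 =
      (x2 * y1 - x1 * y2) * (κ * sq b2 (k + 3) - sq b2 (k + 2))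
    linear_combination y1 * a1 - x1 * a2 + (2 * b2) * i2 - i1 -
      (x2 * y1 - x1 * y2) * κ * a3 + (x2 * y1 - x1 * y2) * a4

end alg

end Pool.Agent.Helper80.DY
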