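import Pool.Agent.Helper80.DY.E0C

/-!
# Block [E0] of MP_d13a5e_al, part D: the sum of the coefficients at `d2`

`x = g t + x1 d1 + x2 d2` is the steeper root, `x' = g' t + y1 d1 + y2 d2` the flatter one,
`φ t = 1`, `φ d1 = f ≥ 0`, `φ d2 = -κ < 0`.
-/

set_option autoImplicit false

namespace Pool.Agent.Helper80.DY

open Pool.Agent.Helper62.DY
open _root_.DY (Z1 sq)

/-- the two roots -/
structure Cfg (b1 b2 bO : ℝ) (R : ℝ → ℝ → ℝ → Prop) (κ f g x1 x2 g' y1 y2 : ℝ) : Prop where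
  h : RT b1 b2 bO R
  hx : R g x1 x2
  hy : R g' y1 y2
  hx1 : 1 ≤ x1
  hx2 : 1 ≤ x2
  hy1 : 1 ≤ y1
  hy2 : 0 ≤ y2
  hg' : 0 ≤ g'
  hf : 0 ≤ f
  κ0 : 0 < κ
  e : g = κ * x2 - f * x1
  e' : g' = κ * y2 - f * y1
  st : x1 * y2 < x2 * y1
  obt : g ≤ b1 * x1 + b2 * x2
  BB : g * g' + x1 * y1 + x2 * y2 - b1 * (g * y1 + g' * x1) - b2 * (g * y2 + g' * x2) -
    bO * (x1 * y2 + x2 * y1) ≤ 0

namespace Cfg

variable {b1 b2 bO κ f g x1 x2 g' y1 y2 : ℝ} {R : ℝ → ℝ → ℝ → Prop}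
  (C : Cfg b1 b2 bO R κ f g x1 x2 g' y1 y2)

include C

theorem slope : g * y1 - g' * x1 = κ * (x2 * y1 - x1 * y2) := by
  have h1 := C.e
  have h2 := C.e'
  linear_combination y1 * h1 - x1 * h2

theorem one {k : ℕ} (hκ : sq b2 k < κ * sq b2 (k + 1)) : 1 ≤ fw b1 b2 bO x1 x2 g (k + 1) := by
  have h1 := (fw_slope b1 b2 bO g x1 x2 g' y1 y2 C.slope k).1
  have h2 := fw_nn C.h C.hy (by linarith [C.hy1]) (k + 1)
  have h3 : 0 < (x2 * y1 - x1 * y2) * (κ * sq b2 (k + 1) - sq b2 k) :=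
    mul_pos (by linarith [C.st]) (by linarith)
  have h4 : 0 ≤ fw b1 b2 bO y1 y2 g' (k + 1) * x1 := mul_nonneg h2 (by linarith [C.hx1])
  have h5 : 0 < fw b1 b2 bO x1 x2 g (k + 1) := by
    by_contra h
    have := mul_nonpos_of_nonpos_of_nonneg (not_lt.1 h) (by linarith [C.hy1] : 0 ≤ y1)
    linarith
  rcases fw_z1 C.h C.hx (by linarith [C.hx1]) (k + 1) with h6 | h6
  · exact absurd h6 h5.ne'
  · exact h6

theorem A20 : 0 < (x2 - b2 * g - bO * x1) + κ * (g - b1 * x1 - b2 * x2) := by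
  have h1 := C.h.n _ _ _ C.hx
  have h2 := C.slope
  have h3 : (x2 * y1 - x1 * y2) * ((x2 - b2 * g - bO * x1) + κ * (g - b1 * x1 - b2 * x2)) =
      y1 * 1 - x1 * (g * g' + x1 * y1 + x2 * y2 - b1 * (g * y1 + g' * x1) -
        b2 * (g * y2 + g' * x2) - bO * (x1 * y2 + x2 * y1)) := by
    rw [← h1]
    linear_combination (-(g - b1 * x1 - b2 * x2)) * h2
  have h4 : x1 * (g * g' + x1 * y1 + x2 * y2 - b1 * (g * y1 + g' * x1) -
        b2 * (g * y2 + g' * x2) - bO * (x1 * y2 + x2 * y1)) ≤ 0 :=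
    mul_nonpos_of_nonneg_of_nonpos (by linarith [C.hx1]) C.BB
  have h5 : 0 < (x2 * y1 - x1 * y2) * ((x2 - b2 * g - bO * x1) + κ * (g - b1 * x1 - b2 * x2)) := by
    rw [h3]
    linarith [C.hy1]
  exact (mul_pos_iff_of_pos_left (by linarith [C.st])).1 h5

theorem diff_pos {k : ℕ} (hs : 0 < sq b2 (k + 1)) (hκ : sq b2 k < κ * sq b2 (k + 1)) :
    0 < fw b1 b2 bO x1 x2 g k - fw b1 b2 bO x1 x2 g (k + 2) := by
  rw [(fw_diff b1 b2 bO g x1 x2 k).1]
  have h0 : g - b1 * x1 - b2 * x2 ≤ 0 := by linarith [C.obt]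
  have h1 : κ * sq b2 (k + 1) * (g - b1 * x1 - b2 * x2) ≤ sq b2 k * (g - b1 * x1 - b2 * x2) :=
    mul_le_mul_of_nonpos_right hκ.le h0
  have h2 := mul_pos hs C.A20
  nlinarith

/-- the reflection in `e` if `e` is orthogonal to `l_(k+1)` -/
theorem refl_one {k : ℕ} (hb : fb b1 bO (k + 1) = 0) (hκ : sq b2 k < κ * sq b2 (k + 1)) :
    1 ≤ 2 * fb b1 bO k * fw b1 b2 bO x1 x2 g (k + 1) - x1 := by
  have hx1 := C.hx1
  have hy1 := C.hy1
  have h1 := C.one hκ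
  have h2 := fw_refl_z1 C.h C.hx k (by linarith)
  rw [hb] at h2
  have e1 : 2 * fb b1 bO k * fw b1 b2 bO x1 x2 g (k + 1) + 2 * 0 * fw b1 b2 bO x1 x2 g k - x1 =
      2 * fb b1 bO k * fw b1 b2 bO x1 x2 g (k + 1) - x1 := by ring
  rw [e1] at h2
  rcases h2 with h2 | h2
  · exfalso
    have h3 := (fw_slope b1 b2 bO g x1 x2 g' y1 y2 C.slope k).1
    have h4 : 0 < (x2 * y1 - x1 * y2) * (κ * sq b2 (k + 1) - sq b2 k) :=
      mul_pos (by linarith [C.st]) (by linarith)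
    rw [← h3] at h4
    have hx : x1 = 2 * fb b1 bO k * fw b1 b2 bO x1 x2 g (k + 1) := by linarith
    have hbp : 0 < fb b1 bO k := by
      by_contra h
      have := mul_nonpos_of_nonpos_of_nonneg (not_lt.1 h)
        (by linarith : 0 ≤ fw b1 b2 bO x1 x2 g (k + 1))
      linarith
    have h5 : 2 * fb b1 bO k * fw b1 b2 bO y1 y2 g' (k + 1) - y1 < 0 := by
      by_contra h
      rw [not_lt] at h
      have h6 : 0 ≤ fw b1 b2 bO x1 x2 g (k + 1) *
          (2 * fb b1 bO k * fw b1 b2 bO y1 y2 g' (k + 1) - y1) := mul_nonneg (by linarith) h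
      have h7 : fw b1 b2 bO y1 y2 g' (k + 1) * x1 =
          fw b1 b2 bO y1 y2 g' (k + 1) * (2 * fb b1 bO k * fw b1 b2 bO x1 x2 g (k + 1)) := by
        rw [← hx]
      linarith
    obtain ⟨h6, h7⟩ := fw_refl_neg C.h C.hy (by linarith) k (by rw [hb]; linarith)
    have h8 := fw_B b1 b2 bO g x1 x2 g' y1 y2 k
    rw [h6, h7, hb] at h8
    have h9 := C.BB
    rw [← h8] at h9
    have h10 : 0 < y1 * (fb b1 bO k * fw b1 b2 bO x1 x2 g (k + 1)) :=
      mul_pos (by linarith) (mul_pos hbp (by linarith))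
    have h11 : x1 * y1 = 2 * fb b1 bO k * fw b1 b2 bO x1 x2 g (k + 1) * y1 := by rw [← hx]
    linarith
  · exact h2

/-- not both labels at `d1` are zero -/
theorem b_pos : 1 / 2 ≤ b1 ∨ 1 / 2 ≤ bO := by
  rcases C.h.b1z with h1 | h1
  · rcases C.h.bOz with h2 | h2
    · exfalso
      have h3 := C.h.r1 _ _ _ C.hx
      rw [h1, h2] at h3
      have h4 := (C.h.z2 h3 (by linarith [C.hx2])).2.1
      rcases h4 with h4 | h4 <;> linarith [C.hx1]
    · right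
      linarith
  · left
    linarith

end Cfg

section cheb

variable {b s a d : ℝ}

theorem ch_cs (h : Ch b s a d) : 2 * b ≤ s := by
  have h1 : 0 ≤ (a - 1) * (d - 1) := mul_nonneg (by linarith [h.a1]) (by linarith [h.d1])
  have h2 : 2 * b * s ≤ s * s := by nlinarith [h.ad, h.sum]
  exact le_of_mul_le_mul_right h2 h.s0

end cheb

theorem sq_two' (b : ℝ) : sq b 2 = 2 * b := by
  have : sq b 2 = 2 * b * sq b 1 - sq b 0 := rfl
  rw [this, sq_one, sq_zero]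
  ring

theorem sq_three' (b : ℝ) : sq b 3 = (2 * b) ^ 2 - 1 := by
  have : sq b 3 = 2 * b * sq b 2 - sq b 1 := rfl
  rw [this, sq_two', sq_one]
  ring

theorem sq_four' (b : ℝ) : sq b 4 = (2 * b) ^ 3 - 2 * (2 * b) := by
  have : sq b 4 = 2 * b * sq b 3 - sq b 2 := rfl
  rw [this, sq_three', sq_two']
  ring

theorem sq_five' (b : ℝ) : sq b 5 = (2 * b) ^ 4 - 3 * (2 * b) ^ 2 + 1 := by
  have : sq b 5 = 2 * b * sq b 4 - sq b 3 := rfl
  rw [this, sq_four', sq_three']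
  ring

end Pool.Agent.Helper80.DY
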