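import Pool.Agent.Helper80.DY.E0D

/-!
# Block [E0] of MP_d13a5e_al, part E: `(κ - τ_j) (x2 + y2) ≥ 1`
-/

set_option autoImplicit false

namespace Pool.Agent.Helper80.DY

open Pool.Agent.Helper62.DY
open _root_.DY (Z1 sq)

theorem fD_nn {b1 b2 bO : ℝ} (hb1 : 0 ≤ b1) (hbO : 0 ≤ bO) (k : ℕ)
    (hs : ∀ i < k, 0 ≤ sq b2 i) : 0 ≤ fD b1 b2 bO k := by
  induction k with
  | zero => exact le_rfl
  | succ k ih =>
    rw [fD_succ]
    have h1 := ih fun i hi => hs i (by omega)
    have h2 := hs k (by omega)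
    have h3 : 0 ≤ fb b1 bO k := by
      unfold fb
      split_ifs <;> assumption
    have := mul_nonneg h3 h2
    linarith

/-- nonnegative below -/
theorem sq_nn_of {b : ℝ} {K : ℕ} (hs : ∀ n, 1 ≤ n → n ≤ K → 1 ≤ sq b n) (i : ℕ) (hi : i ≤ K) :
    0 ≤ sq b i := by
  rcases Nat.eq_zero_or_pos i with h | h
  · rw [h, sq_zero]
  · linarith [hs i h hi]

/-- the slope condition for the previous index -/
theorem κ_prev {b κ : ℝ} {k : ℕ} (h1 : 0 < sq b (k + 1)) (h2 : 0 < sq b (k + 2))
    (hκ : sq b (k + 1) < κ * sq b (k + 2)) : sq b k < κ * sq b (k + 1) := by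
  have h3 := cheb_id (b := b) (sq_zero b) (sq_one b) (sq_rec b) k
  have h4 : sq b (k + 2) * sq b k < sq b (k + 2) * (κ * sq b (k + 1)) := by
    have h5 : sq b (k + 1) * sq b (k + 1) < κ * sq b (k + 2) * sq b (k + 1) :=
      mul_lt_mul_of_pos_right hκ h1
    nlinarith
  exact lt_of_mul_lt_mul_left h4 h2.le

namespace Cfg

variable {b1 b2 bO κ f g x1 x2 g' y1 y2 : ℝ} {R : ℝ → ℝ → ℝ → Prop}
  (C : Cfg b1 b2 bO R κ f g x1 x2 g' y1 y2)

include C

/-- labels of the fan -/
theorem lab (k : ℕ) : 2 * fb b1 bO k = 0 ∨ 2 * fb b1 bO k = 1 ∨ 2 ≤ (2 * fb b1 bO k) ^ 2 := by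
  rcases Nat.mod_two_eq_zero_or_one k with hk | hk
  · rw [fb_even b1 bO hk]
    exact C.h.swap0.bOs
  · rw [fb_odd b1 bO hk]
    exact C.h.bOs

/-- the data for the index `j = k + 2` -/
theorem data {k : ℕ} (hs : 0 < sq b2 (k + 1)) (hκ : sq b2 k < κ * sq b2 (k + 1)) :
    fw b1 b2 bO x1 x2 g (k + 1) ^ 2 + fw b1 b2 bO x1 x2 g (k + 2) ^ 2 + x1 ^ 2 -
      2 * b2 * fw b1 b2 bO x1 x2 g (k + 1) * fw b1 b2 bO x1 x2 g (k + 2) -
      2 * fb b1 bO k * x1 * fw b1 b2 bO x1 x2 g (k + 1) -
      2 * fb b1 bO (k + 1) * x1 * fw b1 b2 bO x1 x2 g (k + 2) = 1 ∧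
    sq b2 (k + 1) * (fw b1 b2 bO x1 x2 g (k + 1) - 2 * b2 / 2 * fw b1 b2 bO x1 x2 g (k + 2) -
        fb b1 bO k * x1) +
      sq b2 (k + 2) * (fw b1 b2 bO x1 x2 g (k + 2) - 2 * b2 / 2 * fw b1 b2 bO x1 x2 g (k + 1) -
        fb b1 bO (k + 1) * x1) ≤ 0 ∧
    0 < 2 * b2 / 2 * fw b1 b2 bO x1 x2 g (k + 1) - fw b1 b2 bO x1 x2 g (k + 2) +
      fb b1 bO (k + 1) * x1 ∧
    sq b2 (k + 2) * fw b1 b2 bO x1 x2 g (k + 1) - sq b2 (k + 1) * fw b1 b2 bO x1 x2 g (k + 2) +
      (fD b1 b2 bO (k + 1) + 2 * fb b1 bO (k + 1) * sq b2 (k + 1)) * x1 = x2 := by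
  refine ⟨?_, ?_, ?_, ?_⟩
  · have h1 := fw_norm C.h C.hx (k + 1)
    have e : fb b1 bO (k + 1 + 1) = fb b1 bO k := fb_add b1 bO k
    rw [e] at h1
    exact h1
  · have h1 := fw_t b1 b2 bO g x1 x2 (k + 1)
    have e : fb b1 bO (k + 1 + 1) = fb b1 bO k := fb_add b1 bO k
    rw [e] at h1
    have e2 : 2 * b2 / 2 = b2 := by ring
    rw [e2]
    have h2 := C.obt
    have h3 : g - b1 * x1 - b2 * x2 ≤ 0 := by linarith
    rw [← h1] at h3
    exact h3
  · have h1 := C.diff_pos hs hκ
    have h2 := fw_succ b1 b2 bO x1 x2 g k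
    linarith
  · have h1 := fw_x2 b1 b2 bO g x1 x2 (k + 1)
    exact h1

/-- **case (i)** -/
theorem low1 (hb1 : 1 / 2 ≤ b1) (hbO : 1 / 2 ≤ bO) (k : ℕ) :
    1 ≤ k → (∀ n, 1 ≤ n → n ≤ k + 2 → 1 ≤ sq b2 n) → sq b2 k < κ * sq b2 (k + 1) →
    sq b2 (k + 2) + 2 * b2 ≤ x2 := by
  have hfb : ∀ k, 1 / 2 ≤ fb b1 bO k := by
    intro k
    unfold fb
    split_ifs <;> assumption
  induction k with
  | zero => intro h; omega
  | succ k ih =>
    intro hk hs hκ
    have hCh := ch_of (b := b2) (sq_zero b2) (sq_one b2) (sq_rec b2) hk hs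
    have h3 := hs 3 (by omega) (by omega)
    have h2 := hs 2 (by omega) (by omega)
    rw [sq_three'] at h3
    rw [sq_two'] at h2
    have hc1 : 1 < 2 * b2 := by nlinarith
    rcases le_or_gt (sq b2 (k + 1)) (sq b2 (k + 1 + 2)) with hda | hda
    · obtain ⟨d1, d2, d3, d4⟩ := C.data hCh.s0 hκ
      have hD : 1 ≤ fD b1 b2 bO (k + 1 + 1) := by
        rw [fD_succ]
        have e1 := fD_nn (b1 := b1) (b2 := b2) (bO := bO) (by linarith) (by linarith) (k + 1)
          (fun i hi => sq_nn_of hs i (by omega))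
        have e2 : 1 / 2 * 1 ≤ fb b1 bO (k + 1) * sq b2 (k + 1) :=
          mul_le_mul (hfb _) hCh.d1 (by norm_num) (by linarith [hfb (k + 1)])
        linarith
      have h4 := case1 (c := 2 * b2) hCh.ad hCh.sum (ch_cs hCh) hc1 hda (by linear_combination d1) d2 d3 (C.one hκ)
        C.hx1 (hfb (k + 1 + 1)) (hfb (k + 1)) hD
      linarith
    · -- reduction to the previous index
      have hk0 : 1 ≤ k := by
        by_contra h
        have hk0 : k = 0 := by omega
        rw [hk0] at hda
        have e1 : sq b2 (0 + 1) = 1 := rfl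
        have e2 := hs 3 (by omega) (by omega)
        have e3 : sq b2 (0 + 1 + 2) = sq b2 3 := rfl
        rw [e1, e3] at hda
        linarith
      have h4 := ih hk0 (fun n h1 h2 => hs n h1 (by omega))
        (κ_prev (by linarith [hs (k + 1) (by omega) (by omega)])
          (by linarith [hs (k + 2) (by omega) (by omega)]) hκ)
      have h5 : sq b2 (k + 1 + 2) ≤ sq b2 (k + 2) := by
        have hb : b2 < 1 := by
          by_contra hb
          rw [not_lt] at hb
          have e1 := (sq_grow hb (k + 1)).2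
          have e2 := (sq_grow hb (k + 1 + 1)).2
          have e3 : sq b2 (k + 1 + 1 + 1) = sq b2 (k + 1 + 2) := rfl
          rw [e3] at e2
          linarith
        have e1 := hCh.sum
        have e2 : b2 * sq b2 (k + 1 + 1) ≤ 1 * sq b2 (k + 1 + 1) :=
          mul_le_mul_of_nonneg_right hb.le hCh.s0.le
        have e3 : sq b2 (k + 1 + 1) = sq b2 (k + 2) := rfl
        rw [← e3]
        linarith
      linarith

/-- **cases (ii), (iii)** -/
theorem low2 (hz : b1 = 0 ∨ bO = 0) (k : ℕ) :
    2 ≤ k → (∀ n, 1 ≤ n → n ≤ k + 2 → 1 ≤ sq b2 n) → sq b2 k < κ * sq b2 (k + 1) →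
    (k = 2 → sq b2 2 ≤ sq b2 4) → sq b2 (k + 2) + 2 * b2 ≤ x2 := by
  have hb10 := C.h.b1n
  have hbO0 := C.h.bOn
  have hzz : ∀ k, (fb b1 bO k = 0 ∧ 1 / 2 ≤ fb b1 bO (k + 1)) ∨
      (1 / 2 ≤ fb b1 bO k ∧ fb b1 bO (k + 1) = 0) := by
    intro k
    have hbp := C.b_pos
    rcases Nat.mod_two_eq_zero_or_one k with hk | hk
    · rw [fb_even b1 bO hk, fb_odd b1 bO (by omega : (k + 1) % 2 = 1)]
      rcases hz with hz | hz
      · left
        refine ⟨hz, ?_⟩
        rcases hbp with h | h
        · linarith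
        · exact h
      · right
        refine ⟨?_, hz⟩
        rcases hbp with h | h
        · exact h
        · linarith
    · rw [fb_odd b1 bO hk, fb_even b1 bO (by omega : (k + 1) % 2 = 0)]
      rcases hz with hz | hz
      · right
        refine ⟨?_, hz⟩
        rcases hbp with h | h
        · linarith
        · exact h
      · left
        refine ⟨hz, ?_⟩
        rcases hbp with h | h
        · exact h
        · linarith
  induction k with
  | zero => intro h; omega
  | succ k ih =>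
    intro hk hs hκ h24
    have hk1 : 1 ≤ k := by omega
    have hCh := ch_of (b := b2) (sq_zero b2) (sq_one b2) (sq_rec b2) (k := k + 1) (by omega) hs
    have hCh' := ch_of (b := b2) (sq_zero b2) (sq_one b2) (sq_rec b2) hk1
      (fun n h1 h2 => hs n h1 (by omega))
    have h4 := hs 4 (by omega) (by omega)
    have h3 := hs 3 (by omega) (by omega)
    have h2 := hs 2 (by omega) (by omega)
    rw [sq_three'] at h3
    rw [sq_two'] at h2
    have hc1 : 1 < 2 * b2 := by nlinarith
    have hcd : 2 * b2 ≤ sq b2 (k + 1) := ch_cs hCh'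
    -- `c ^ 2 ≥ 3`
    have hc3 : sq b2 (k + 1) ≤ sq b2 (k + 1 + 2) ∨ 2 ≤ k → 3 ≤ (2 * b2) ^ 2 := by
      intro h
      by_cases hk2 : 2 ≤ k
      · have h5 := hs 5 (by omega) (by omega)
        rw [sq_five'] at h5
        by_contra hcon
        rw [not_le] at hcon
        have : (2 * b2) ^ 2 * ((2 * b2) ^ 2 - 3) < 0 := mul_neg_of_pos_of_neg (by positivity) (by linarith)
        nlinarith
      · have hk2' : k = 1 := by omega
        subst hk2'
        have h5 := h24 rfl
        rw [sq_two', sq_four'] at h5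
        have : 2 * b2 * 3 ≤ 2 * b2 * (2 * b2) ^ 2 := by nlinarith
        exact le_of_mul_le_mul_left this (by linarith)
    rcases le_or_gt (sq b2 (k + 1)) (sq b2 (k + 1 + 2)) with hda | hda
    · have hc3' := hc3 (Or.inl hda)
      obtain ⟨d1, d2, d3, d4⟩ := C.data hCh.s0 hκ
      have hp1 := C.one hκ
      rcases hzz (k + 1) with ⟨z1, z2⟩ | ⟨z1, z2⟩
      · -- case (ii)
        rw [z1] at d1 d2
        have hDk : fD b1 b2 bO (k + 1 + 1) = fD b1 b2 bO (k + 1) := by
          rw [fD_succ, z1]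
          ring
        have hfk : fb b1 bO k = fb b1 bO (k + 1 + 1) := (fb_add b1 bO k).symm
        have hDk2 : 2 * fb b1 bO (k + 1 + 1) * sq b2 k ≤ fD b1 b2 bO (k + 1 + 1) := by
          rw [hDk, fD_succ, hfk]
          have e1 := fD_nn (b1 := b1) (b2 := b2) (bO := bO) hb10 hbO0 k
            (fun i hi => sq_nn_of hs i (by omega))
          linarith
        by_cases hk2 : 2 ≤ k
        · have hck : 2 * b2 ≤ sq b2 k := by
            obtain ⟨m, rfl⟩ : ∃ m, k = m + 1 := ⟨k - 1, by omega⟩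
            have := ch_of (b := b2) (sq_zero b2) (sq_one b2) (sq_rec b2) (k := m) (by omega)
              (fun n h1 h2 => hs n h1 (by omega))
            exact ch_cs this
          have h5 : 2 * fb b1 bO (k + 1 + 1) * (2 * b2) ≤ fD b1 b2 bO (k + 1 + 1) := by
            have : 2 * fb b1 bO (k + 1 + 1) * (2 * b2) ≤ 2 * fb b1 bO (k + 1 + 1) * sq b2 k :=
              mul_le_mul_of_nonneg_left hck (by linarith)
            linarith
          have h6 := case2b (c := 2 * b2) hCh.ad hCh.sum hCh.s0 (by linarith) hda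
            (by linear_combination d1) d2 d3 hp1 C.hx1 z2 h5
          linarith
        · have hk2' : k = 1 := by omega
          subst hk2'
          have h5 : 2 * fb b1 bO (1 + 1 + 1) ≤ fD b1 b2 bO (1 + 1 + 1) := by
            rw [sq_one, mul_one] at hDk2
            exact hDk2
          have hs3 : sq b2 (1 + 1 + 1) = (2 * b2) ^ 2 - 1 := sq_three' b2
          have h6 := case2a (c := 2 * b2) hCh.ad hCh.sum hs3 hc3' (by linarith) hda
            (by linear_combination d1) d2 d3 hp1 C.hx1 z2 h5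
          linarith
      · -- case (iii)
        have hrf := C.refl_one z2 hκ
        rw [z2] at d1 d2 d3 d4
        have hDk2 : 2 * fb b1 bO (k + 1) * sq b2 (k + 1) ≤ fD b1 b2 bO (k + 1 + 1) := by
          rw [fD_succ]
          have e1 := fD_nn (b1 := b1) (b2 := b2) (bO := bO) hb10 hbO0 (k + 1)
            (fun i hi => sq_nn_of hs i (by omega))
          linarith
        rcases C.lab (k + 1) with hl | hl | hl
        · linarith
        · have hb' : fb b1 bO (k + 1) = 1 / 2 := by linarith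
          rw [hb'] at d1 d2 hrf hDk2
          have hs2 : 1 + (2 * b2) ^ 2 ≤ sq b2 (k + 1 + 1) ^ 2 := by
            have e1 := hCh.ad
            have e2 : sq b2 (k + 1) * sq b2 (k + 1) ≤ sq b2 (k + 1 + 2) * sq b2 (k + 1) :=
              mul_le_mul_of_nonneg_right hda (by linarith)
            have e3 : (2 * b2) ^ 2 ≤ sq b2 (k + 1) ^ 2 := pow_le_pow_left₀ (by linarith) hcd 2
            linarith
          have hs2' : 2 ≤ sq b2 (k + 1 + 1) := by nlinarith [hCh.s0]
          have h6 := case3a (c := 2 * b2) hCh.ad hCh.sum hs2' hs2 hc3' (by linarith) hda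
            (by linear_combination d1) d2 d3 (by linarith) C.hx1 (by linarith : sq b2 (k + 1) ≤ fD b1 b2 bO (k + 1 + 1))
          linarith
        · have h6 := case3b (c := 2 * b2) (μ := 2 * fb b1 bO (k + 1)) hCh.ad hCh.sum hCh.s0 hc3'
            (by linarith) hcd hda (by linear_combination d1)
            (by
              have e : 2 * fb b1 bO (k + 1) / 2 = fb b1 bO (k + 1) := by ring
              rw [e]
              exact d2) d3 hp1 (by linarith) C.hx1 (by linarith) hl hDk2
          linarith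
    · -- reduction to the previous index
      have hk2 : 2 ≤ k := by
        by_contra h
        have hk2' : k = 1 := by omega
        subst hk2'
        have h5 := h24 rfl
        have e1 : sq b2 (1 + 1) = sq b2 2 := rfl
        have e2 : sq b2 (1 + 1 + 2) = sq b2 4 := rfl
        rw [e1, e2] at hda
        linarith
      have hc3' := hc3 (Or.inr hk2)
      have h4 := ih hk2 (fun n h1 h2 => hs n h1 (by omega))
        (κ_prev (by linarith [hs (k + 1) (by omega) (by omega)])
          (by linarith [hs (k + 2) (by omega) (by omega)]) hκ)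
        (by
          intro _
          rw [sq_two', sq_four']
          nlinarith)
      have h5 : sq b2 (k + 1 + 2) ≤ sq b2 (k + 2) := by
        have hb : b2 < 1 := by
          by_contra hb
          rw [not_lt] at hb
          have e1 := (sq_grow hb (k + 1)).2
          have e2 := (sq_grow hb (k + 1 + 1)).2
          have e3 : sq b2 (k + 1 + 1 + 1) = sq b2 (k + 1 + 2) := rfl
          rw [e3] at e2
          linarith
        have e1 := hCh.sum
        have e2 : b2 * sq b2 (k + 1 + 1) ≤ 1 * sq b2 (k + 1 + 1) :=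
          mul_le_mul_of_nonneg_right hb.le hCh.s0.le
        have e3 : sq b2 (k + 1 + 1) = sq b2 (k + 2) := rfl
        rw [← e3]
        linarith
      linarith

end Cfg

end Pool.Agent.Helper80.DY
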