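import Pool.Agent.Helper80.DY.E0E

/-!
# Block [E0] of MP_d13a5e_al, part F: `(κ - τ_j) (x2 + y2) ≥ 1` in all cases
-/

set_option autoImplicit false

namespace Pool.Agent.Helper80.DY

open Pool.Agent.Helper62.DY
open _root_.DY (Z1 sq)

namespace Cfg

variable {b1 b2 bO κ f g x1 x2 g' y1 y2 : ℝ} {R : ℝ → ℝ → ℝ → Prop}
  (C : Cfg b1 b2 bO R κ f g x1 x2 g' y1 y2)

include C

/-- Lemma A gives the result if `x` is positive at the corner -/
theorem of_LA {k : ℕ} (hk : 1 ≤ k) (hs : ∀ n, 1 ≤ n → n ≤ k + 2 → 1 ≤ sq b2 n)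
    (hu : sq b2 k * x2 < sq b2 (k + 1) * g) :
    1 ≤ (κ - (sq b2 (k + 1) - 1) / sq b2 (k + 2)) * (x2 + y2) := by
  have hs1 : 0 < sq b2 (k + 1) := by linarith [hs (k + 1) (by omega) (by omega)]
  have h1 := LA_one C.h (sq_zero b2) (sq_one b2) (sq_rec b2) hk hs C.hx (by linarith [C.hx2])
    (by
      rw [div_mul_eq_mul_div, div_lt_iff₀ hs1]
      linarith)
  have h2 : g ≤ κ * x2 := by
    have := mul_nonneg C.hf (by linarith [C.hx1] : 0 ≤ x1)
    linarith [C.e]
  have h3 : 1 ≤ (κ - (sq b2 (k + 1) - 1) / sq b2 (k + 2)) * x2 := by linarith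
  have h4 : 0 ≤ κ - (sq b2 (k + 1) - 1) / sq b2 (k + 2) := by
    by_contra h
    have := mul_nonpos_of_nonpos_of_nonneg (not_le.1 h).le (by linarith [C.hx2] : 0 ≤ x2)
    linarith
  have h5 := mul_nonneg h4 C.hy2
  linarith

/-- the exceptional case `m2 = 5`, `j = 4` -/
theorem low5 (hz : b1 = 0 ∨ bO = 0) (hs : ∀ n, 1 ≤ n → n ≤ 4 → 1 ≤ sq b2 n)
    (hκ : sq b2 2 < κ * sq b2 3) (h24 : sq b2 4 < sq b2 2) :
    2 * b2 ≤ x2 ∧ sq b2 2 = 2 * b2 ∧ sq b2 3 = 2 * b2 ∧ sq b2 4 = 1 := by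
  have h2 := hs 2 (by omega) (by omega)
  have h3 := hs 3 (by omega) (by omega)
  have h4 := hs 4 (by omega) (by omega)
  have p5 := C.h.pnn 3 (by have : sq b2 (3 + 1) = sq b2 4 := rfl; rw [this]; linarith)
  have g5 := C.h.pge 4
  have e5 : sq b2 (4 + 1) = sq b2 5 := rfl
  have e5' : sq b2 (3 + 2) = sq b2 5 := rfl
  rw [e5] at g5
  rw [e5'] at p5
  obtain ⟨c, hc⟩ : ∃ c, c = 2 * b2 := ⟨_, rfl⟩
  have s2 : sq b2 2 = c := by rw [sq_two', hc]
  have s3 : sq b2 3 = c ^ 2 - 1 := by rw [sq_three', hc]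
  have s4 : sq b2 4 = c ^ 3 - 2 * c := by rw [sq_four', hc]
  have s5 : sq b2 5 = c ^ 4 - 3 * c ^ 2 + 1 := by rw [sq_five', hc]
  rw [s2] at h2
  rw [s3] at h3
  rw [s4] at h4
  rw [s5] at p5 g5
  rw [s2, s4] at h24
  have hc0 : 0 < c := by linarith
  have hc3 : c ^ 2 < 3 := by
    have : c * c ^ 2 < c * 3 := by nlinarith
    exact lt_of_mul_lt_mul_left this hc0.le
  have h5 : c ^ 4 - 3 * c ^ 2 + 1 = 0 := by
    by_contra h
    have h6 := g5 (lt_of_le_of_ne p5 (Ne.symm h))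
    have : c ^ 2 * (c ^ 2 - 3) < 0 := mul_neg_of_pos_of_neg (by positivity) (by linarith)
    nlinarith
  have hc2 : c ^ 2 = c + 1 := by
    have h6 : (c ^ 2 - c - 1) * (c ^ 2 + c - 1) = 0 := by linear_combination h5
    rcases mul_eq_zero.1 h6 with h7 | h7
    · linarith
    · nlinarith
  have s3' : sq b2 3 = c := by rw [s3]; linarith
  have s4' : sq b2 4 = 1 := by
    rw [s4]
    linear_combination (c + 1) * hc2
  rw [← hc]
  refine ⟨?_, s2, s3', s4'⟩
  have hbp := C.b_pos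
  have hκ1 : sq b2 1 < κ * sq b2 2 := κ_prev (k := 1) (by rw [s2]; exact hc0)
    (by have : sq b2 (1 + 2) = sq b2 3 := rfl; rw [this, s3']; exact hc0) hκ
  have hw3 := C.one (k := 2) hκ
  have n1 := fw_norm C.h C.hx 2
  have t1 := fw_t b1 b2 bO g x1 x2 2
  have v1 := fw_x2 b1 b2 bO g x1 x2 2
  have q1 := C.diff_pos (k := 1) (by have : sq b2 (1 + 1) = sq b2 2 := rfl; rw [this, s2]; exact hc0) hκ1
  have q2 := C.diff_pos (k := 2) (by have : sq b2 (2 + 1) = sq b2 3 := rfl; rw [this, s3']; exact hc0) hκ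
  have r1 := fw_succ b1 b2 bO x1 x2 g 1
  have r2 := fw_succ b1 b2 bO x1 x2 g 2
  have e1 : (1 : ℕ) + 1 = 2 := rfl
  have e2 : (2 : ℕ) + 1 = 3 := rfl
  have e3 : (1 : ℕ) + 2 = 3 := rfl
  have e4 : (2 : ℕ) + 2 = 4 := rfl
  have hD : fD b1 b2 bO 3 = 2 * bO + 2 * b1 * c := by
    have d3 : fD b1 b2 bO 3 = 0 + 2 * fb b1 bO 0 * sq b2 0 + 2 * fb b1 bO 1 * sq b2 1 +
      2 * fb b1 bO 2 * sq b2 2 := rfl
    rw [d3, fb_one, fb_two, sq_zero, sq_one, s2]
    ring
  rw [e2] at n1 t1 v1 r2 hw3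
  rw [e1] at r1
  rw [e3] at q1 r1
  rw [e4] at q2 r2
  rw [fb_two] at r1
  rw [fb_three] at r2
  rw [fb_two, fb_three] at n1 t1
  rw [hD, s2, s3'] at v1
  rw [s2, s3'] at t1
  obtain ⟨p, hp⟩ : ∃ p, p = fw b1 b2 bO x1 x2 g 2 := ⟨_, rfl⟩
  obtain ⟨q, hq⟩ : ∃ q, q = fw b1 b2 bO x1 x2 g 3 := ⟨_, rfl⟩
  rw [← hp, ← hq] at n1 t1 v1
  rw [← hp, ← hq] at r2
  rw [← hp, ← hq] at r1
  rw [← hq] at hw3 q1
  rw [← hp] at q2
  obtain ⟨w1, hw1⟩ : ∃ w, w = fw b1 b2 bO x1 x2 g 1 := ⟨_, rfl⟩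
  obtain ⟨w4, hw4⟩ : ∃ w, w = fw b1 b2 bO x1 x2 g 4 := ⟨_, rfl⟩
  rw [← hw1] at q1 r1
  rw [← hw4] at q2 r2
  have hb2c : b2 = c / 2 := by linarith
  rw [hb2c] at n1 t1 r1 r2
  have hobt : g - b1 * x1 - b2 * x2 ≤ 0 := by linarith [C.obt]
  rw [hb2c] at hobt
  rw [← t1] at hobt
  rcases hz with hz | hz
  · have hbO : 1 / 2 ≤ bO := by
      rcases hbp with h | h
      · linarith
      · exact h
    rw [hz] at n1 hobt r1 v1
    have h6 := case5a (c := c) (b := bO) (p := p) (q := q) (Y := x1) hc2 hc0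
      (by linear_combination n1) (by linarith) (by linarith) hw3 C.hx1 hbO
    linarith
  · have hb1 : 1 / 2 ≤ b1 := by
      rcases hbp with h | h
      · exact h
      · linarith
    have h3 := C.refl_one (k := 2) (by rw [e2, fb_three]; exact hz) hκ
    rw [fb_two, e2, ← hq] at h3
    rw [hz] at n1 hobt r2 v1
    have hlab : 2 * b1 = 1 ∨ 2 ≤ (2 * b1) ^ 2 := by
      have := C.lab 0
      rw [fb_zero] at this
      rcases this with h | h | h
      · linarith
      · exact Or.inl h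
      · exact Or.inr h
    have h6 := case5b (c := c) (μ := 2 * b1) (p := p) (q := q) (Y := x1) hc2 hc0
      (by linarith) (by linarith) hw3 C.hx1 (by linarith) hlab (by linarith)
    linarith

/-- `j = 3` -/
theorem main1 (hz : b1 = 0 ∨ bO = 0) (hy2 : 1 ≤ y2) (hs : ∀ n, 1 ≤ n → n ≤ 3 → 1 ≤ sq b2 n)
    (hκ : sq b2 1 < κ * sq b2 2) :
    1 ≤ (κ - (sq b2 2 - 1) / sq b2 3) * (x2 + y2) := by
  have h3 := hs 3 (by omega) (by omega)
  have h2 := hs 2 (by omega) (by omega)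
  obtain ⟨c, hc⟩ : ∃ c, c = 2 * b2 := ⟨_, rfl⟩
  have s2 : sq b2 2 = c := by rw [sq_two', hc]
  have s3 : sq b2 3 = c ^ 2 - 1 := by rw [sq_three', hc]
  rw [s2] at h2
  rw [s3] at h3
  have hc0 : 0 < c := by linarith
  have hc2 : 2 ≤ c ^ 2 := by linarith
  have hw2 : 1 ≤ fw b1 b2 bO x1 x2 g 2 := C.one (k := 1) hκ
  have r1 : fw b1 b2 bO x1 x2 g 2 = c * g + 2 * bO * x1 - x2 := by
    have e1 := fw_succ b1 b2 bO x1 x2 g 0
    have e2 : (0 : ℕ) + 2 = 2 := rfl
    have e3 : (0 : ℕ) + 1 = 1 := rfl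
    rw [e2, e3, fb_one] at e1
    have e4 : fw b1 b2 bO x1 x2 g 1 = g := rfl
    have e5 : fw b1 b2 bO x1 x2 g 0 = x2 := rfl
    rw [e4, e5] at e1
    rw [e1, hc]
  by_cases hst : x2 < c * g
  · have h4 := C.of_LA (k := 1) le_rfl hs (by
      have : sq b2 (1 + 1) = c := s2
      rw [this, sq_one]
      linarith)
    exact h4
  · rw [not_lt] at hst
    have hbO : bO ≠ 0 := by
      intro h
      have h5 := hw2
      rw [r1, h] at h5
      linarith
    have hb1 : b1 = 0 := by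
      rcases hz with h | h
      · exact h
      · exact absurd h hbO
    have hκ' : 1 < κ * c := by
      rw [← s2]
      exact hκ
    -- the data
    have hlt : (1 : ℕ) + 1 = 2 := rfl
    have r2 := fw_succ b1 b2 bO x1 x2 g 1
    have q1 := C.diff_pos (k := 1) (by rw [hlt, s2]; exact hc0) hκ
    have e1 : (1 : ℕ) + 2 = 3 := rfl
    rw [e1, hlt, fb_two, hb1] at r2
    rw [e1, hb1] at q1
    have e4 : fw 0 b2 bO x1 x2 g 1 = g := rfl
    rw [e4] at r2 q1
    have n1 := fw_norm C.h C.hx 1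
    rw [hlt, fb_two, fb_one, hb1, e4] at n1
    rw [hb1] at hw2 r1
    have hw3 := fw_nn C.h C.hx (by linarith [C.hx1]) 3
    rw [hb1] at hw3
    have hrf := C.refl_one (k := 1) (by rw [hlt, fb_two]; exact hb1) hκ
    rw [hlt, fb_one, hb1] at hrf
    obtain ⟨w, hw⟩ : ∃ w, w = fw 0 b2 bO x1 x2 g 2 := ⟨_, rfl⟩
    obtain ⟨w3, hw3'⟩ : ∃ w, w = fw 0 b2 bO x1 x2 g 3 := ⟨_, rfl⟩
    rw [← hw] at hw2 r1 r2 n1 hrf
    rw [← hw3'] at r2 q1 hw3
    rw [← hc] at r2 n1
    have hμz := C.h.bOz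
    have hμ1 : 1 ≤ 2 * bO := by
      rcases hμz with h | h
      · exact absurd (by linarith) hbO
      · exact h
    have hg0 : 0 ≤ g := by nlinarith
    obtain ⟨k1, k2⟩ := steep3 (c := c) (g := g) (w := w) (Y := x1) (μ := 2 * bO) hc2 hc0
      (by linear_combination n1) (by linarith) hg0 (by linarith) hw2 C.hx1 (by linarith) hμ1
    have hx2 : 2 * bO * c ^ 2 ≤ x2 := by
      have : c * (2 * bO * c) ≤ c * g := mul_le_mul_of_nonneg_left k2 hc0.le
      linarith
    rw [s2, s3]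
    rcases C.h.bOs with hl | hl | hl
    · linarith
    · -- `m_O = 3`
      rw [hl] at hx2
      have hy0 := (C.h.z1 C.hy (by linarith [C.hy1])).1
      rcases hy0 with hy0 | hy0
      · exfalso
        have hy := C.hy
        rw [hy0] at hy
        have f1 := C.h.r1 _ _ _ hy
        have f2 := C.h.r2 _ _ _ hy
        have g1 := (C.h.z2 f1 (by linarith)).2.1
        have g2 := (C.h.z1 f2 (by linarith [C.hy1])).2.2
        rw [hl] at g1 g2
        have g1' : 0 ≤ 2 * b1 * 0 + 1 * y2 - y1 := by rcases g1 with h | h <;> linarith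
        have g2' : 0 ≤ 2 * b2 * 0 + 1 * y1 - y2 := by rcases g2 with h | h <;> linarith
        have hyy : y1 = y2 := by linarith
        have f3 := C.h.n _ _ _ hy
        rw [hl, hyy] at f3
        have hy21 : y2 = 1 := by nlinarith
        have hBB := C.BB
        have hb : bO = 1 / 2 := by linarith
        rw [hy0, hyy, hy21, hb1, hb] at hBB
        have h5 : c * g = 2 * b2 * g := by rw [hc]
        nlinarith [C.hx1]
      · refine final3' hc2 hc0 hκ' (by linarith) ?_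
        have h5 := C.e'
        have h6 := mul_nonneg C.hf (by linarith [C.hy1] : 0 ≤ y1)
        linarith
    · -- `m_O ≥ 4`
      refine final3 hc2 hc0 hκ' ?_
      have h5 : 5 / 4 ≤ 2 * bO := by nlinarith
      have h6 : 5 / 4 * c ^ 2 ≤ 2 * bO * c ^ 2 := mul_le_mul_of_nonneg_right h5 (sq_nonneg c)
      nlinarith [sq_nonneg (c / 2 - 1)]

/-- **the main inequality** -/
theorem main {k : ℕ} (hk : 1 ≤ k) (hs : ∀ n, 1 ≤ n → n ≤ k + 2 → 1 ≤ sq b2 n)
    (hκ : sq b2 k < κ * sq b2 (k + 1)) :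
    1 ≤ (κ - (sq b2 (k + 1) - 1) / sq b2 (k + 2)) * (x2 + y2) := by
  rcases (C.h.z1 C.hy (by linarith [C.hy1])).2.2 with hy2 | hy2
  · -- `x' = d1`
    have hf : f = 0 := by
      by_contra h
      have h1 : 0 < f := lt_of_le_of_ne C.hf (Ne.symm h)
      have h2 := C.e'
      rw [hy2] at h2
      have h3 := mul_pos h1 (by linarith [C.hy1] : 0 < y1)
      linarith [C.hg']
    refine C.of_LA hk hs ?_
    have h1 := C.e
    rw [hf] at h1
    have h2 : sq b2 k * x2 < κ * sq b2 (k + 1) * x2 :=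
      mul_lt_mul_of_pos_right hκ (by linarith [C.hx2])
    rw [h1]
    linarith
  · have hCh := ch_of (b := b2) (sq_zero b2) (sq_one b2) (sq_rec b2) hk hs
    have hX : 0 ≤ x2 + y2 := by linarith [C.hx2]
    have fin : 2 ≤ k → sq b2 (k + 2) + 2 * b2 ≤ x2 + y2 →
        1 ≤ (κ - (sq b2 (k + 1) - 1) / sq b2 (k + 2)) * (x2 + y2) := by
      intro hk2 hx
      obtain ⟨m, rfl⟩ : ∃ m, k = m + 1 := ⟨k - 1, by omega⟩
      have hCh' := ch_of (b := b2) (sq_zero b2) (sq_one b2) (sq_rec b2) (k := m) (by omega)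
        (fun n h1 h2 => hs n h1 (by omega))
      exact final4 (c := 2 * b2) hCh.ad hCh.sum (by linarith [hCh.a1]) hCh.s1 (ch_cs hCh') hκ hx hX
    by_cases hz : b1 = 0 ∨ bO = 0
    · by_cases hk1 : k = 1
      · subst hk1
        exact C.main1 hz hy2 hs hκ
      · have hk2 : 2 ≤ k := by omega
        by_cases h24 : k = 2 → sq b2 2 ≤ sq b2 4
        · have := C.low2 hz k hk2 hs hκ h24
          exact fin hk2 (by linarith)
        · have hk2' : k = 2 := by
            by_contra h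
            exact h24 fun h' => absurd h' h
          subst hk2'
          have h24' : sq b2 4 < sq b2 2 := by
            by_contra h
            exact h24 fun _ => not_lt.1 h
          obtain ⟨k1, -, -, k4⟩ := C.low5 hz hs hκ h24'
          refine fin hk2 ?_
          have : sq b2 (2 + 2) = 1 := k4
          rw [this]
          linarith
    · have hb1 : 1 / 2 ≤ b1 := by
        rcases C.h.b1z with h | h
        · exact absurd (Or.inl (by linarith)) hz
        · linarith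
      have hbO : 1 / 2 ≤ bO := by
        rcases C.h.bOz with h | h
        · exact absurd (Or.inr (by linarith)) hz
        · linarith
      have h5 := C.low1 hb1 hbO k hk hs hκ
      by_cases hk1 : k = 1
      · subst hk1
        have h3 := hs 3 (by omega) (by omega)
        have h2 := hs 2 (by omega) (by omega)
        have t2 : sq b2 (1 + 1) = 2 * b2 := sq_two' b2
        have t3 : sq b2 (1 + 2) = (2 * b2) ^ 2 - 1 := sq_three' b2
        rw [sq_three'] at h3
        rw [sq_two'] at h2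
        rw [t3] at h5
        rw [t2, t3]
        refine final3 (by linarith) (by linarith) ?_ (by linarith)
        rw [t2, sq_one] at hκ
        exact hκ
      · exact fin (by omega) (by linarith)

end Cfg

end Pool.Agent.Helper80.DY
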