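import Pool.Agent.Helper80.DY.E0F
import Pool.Agent.Helper9.DY.CaseII

/-!
# Block [E0] of MP_d13a5e_al, part G: assembly
-/

set_option autoImplicit false

namespace Pool.Agent.Helper80.DY

open Pool.Agent.Helper62.DY
open _root_.DY (Z1 C01 Tri rf sq Str Loc Crd Canon E0Stat)

section pencil

variable {c f r : ℝ}

/-- the information of a vertex, strict form -/
theorem vinfo2 (hS : Str c f r) (hc : 0 ≤ c) (hf : f < 0)
    (h1 : ∀ n, 0 < sq c (n + 1) → 1 ≤ sq c (n + 1))
    (h2 : ∀ n, 0 < sq c (n + 1) → 0 ≤ sq c (n + 2)) :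
    0 < r ∨ (c = 0 ∧ 0 ≤ r) ∨ (1 ≤ 2 * c ∧ 2 * c ≤ -f ∧ -c ≤ r) ∨
      (∃ k, 1 ≤ k ∧ (∀ n, 1 ≤ n → n ≤ k + 2 → 1 ≤ sq c n) ∧ sq c k ≤ -f * sq c (k + 1) ∧
        -((sq c (k + 1) - 1) / sq c (k + 2)) < r) ∨
      (1 ≤ c ∧ (∀ n, 1 ≤ sq c (n + 1)) ∧ ∀ n, sq c n ≤ -f * sq c (n + 1)) := by
  classical
  have pos1 : ∀ k, (∀ i ≤ k, 0 < sq c (i + 1)) → ∀ n, 1 ≤ n → n ≤ k + 1 → 1 ≤ sq c n := by
    intro k hk n hn1 hn2
    obtain ⟨m, rfl⟩ : ∃ m, n = m + 1 := ⟨n - 1, by omega⟩
    exact h1 m (hk m (by omega))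
  by_cases hP : ∃ k, (∀ i ≤ k, 0 < sq c (i + 1)) ∧ 0 < sq c (k + 1) * f + sq c k
  · obtain ⟨hk1, hk2⟩ := Nat.find_spec hP
    have hmin : ∀ i < Nat.find hP, sq c (i + 1) * f + sq c i ≤ 0 := by
      intro i hi
      by_contra hcon
      exact Nat.find_min hP hi ⟨fun j hj => hk1 j (by omega), not_le.1 hcon⟩
    have hnk := hS.nk hf _ hk1 hmin hk2
    generalize Nat.find hP = K at hk1 hk2 hmin hnk
    rcases Nat.eq_zero_or_pos K with hK | hK
    · exfalso
      subst hK
      rw [sq_zero] at hk2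
      have : sq c (0 + 1) = 1 := rfl
      rw [this] at hk2
      linarith
    · obtain ⟨m, rfl⟩ : ∃ m, K = m + 1 := ⟨K - 1, by omega⟩
      rcases Nat.eq_zero_or_pos m with hm | hm
      · left
        subst hm
        have e1 : sq c (0 + 1) = 1 := rfl
        rw [e1] at hnk
        have e2 := hk1 (0 + 1) le_rfl
        have e3 : 0 < sq c (0 + 1 + 1) * r := by linarith
        exact (mul_pos_iff_of_pos_left e2).1 e3
      · right
        right
        right
        left
        refine ⟨m, hm, pos1 (m + 1) hk1, ?_, ?_⟩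
        · have e1 := hmin m (by omega)
          linarith
        · have e2 := hk1 (m + 1) le_rfl
          have e4 : -r < (sq c (m + 1) - 1) / sq c (m + 1 + 1) := by
            rw [lt_div_iff₀ e2]
            linarith
          have e5 : sq c (m + 2) = sq c (m + 1 + 1) := rfl
          rw [e5]
          linarith
  · have hP' : ∀ k, (∀ i ≤ k, 0 < sq c (i + 1)) → sq c (k + 1) * f + sq c k ≤ 0 := by
      intro k hk
      by_contra hcon
      exact hP ⟨k, hk, not_le.1 hcon⟩
    by_cases hQ : ∀ i, 0 < sq c (i + 1)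
    · right
      right
      right
      right
      have hall : ∀ n, 1 ≤ sq c (n + 1) := fun n => h1 n (hQ n)
      refine ⟨one_le_of_all hc hall, hall, ?_⟩
      intro n
      have := hP' n (fun i _ => hQ i)
      linarith
    · -- finite order
      have hQ' : ∃ i, sq c (i + 1) ≤ 0 := by
        by_contra hcon
        apply hQ
        intro i
        by_contra h3
        exact hcon ⟨i, not_lt.1 h3⟩
      have hM := Nat.find_spec hQ'
      have hmin : ∀ i < Nat.find hQ', 0 < sq c (i + 1) := by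
        intro i hi
        exact not_le.1 (Nat.find_min hQ' hi)
      generalize Nat.find hQ' = K at hM hmin
      rcases Nat.eq_zero_or_pos K with hK | hK
      · exfalso
        subst hK
        have : sq c (0 + 1) = 1 := rfl
        rw [this] at hM
        linarith
      · obtain ⟨M, rfl⟩ : ∃ M, K = M + 1 := ⟨K - 1, by omega⟩
        have e1 := hmin M (by omega)
        have e2 := h2 M e1
        have e3 : sq c (M + 2) = 0 := le_antisymm hM e2
        have e4 := cheb_id (b := c) (sq_zero c) (sq_one c) (sq_rec c) M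
        have e5 : sq c (M + 1) = 1 := by
          rw [e3, zero_mul] at e4
          nlinarith [h1 M e1]
        have e6 : sq c M = 2 * c := by
          have := sq_rec c M
          rw [e3, e5] at this
          linarith
        have e7 := hP' M (fun i hi => hmin i (by omega))
        rw [e5, e6] at e7
        rcases hc.eq_or_lt with h3 | h3
        · right
          left
          have := hS.foot
          exact ⟨h3.symm, by linarith⟩
        · right
          right
          left
          refine ⟨?_, by linarith, hS.foot⟩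
          have h4 : 0 < sq c (1 + 1) := by
            have : sq c (1 + 1) = 2 * c * 1 - 0 := rfl
            rw [this]
            linarith
          have h5 := h1 1 h4
          have : sq c (1 + 1) = 2 * c * 1 - 0 := rfl
          rw [this] at h5
          linarith

end pencil

namespace Cfg

variable {b1 b2 bO κ f g x1 x2 g' y1 y2 : ℝ} {R : ℝ → ℝ → ℝ → Prop}
  (C : Cfg b1 b2 bO R κ f g x1 x2 g' y1 y2)

include C

theorem g_one : 1 ≤ g := by
  have := C.one (k := 0) (by
    rw [sq_zero]
    have : sq b2 (0 + 1) = 1 := rfl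
    rw [this]
    linarith [C.κ0])
  exact this

/-- **infinite label, beyond the vertex**: impossible -/
theorem not_inf (hb2 : 1 ≤ b2) (hall : ∀ n, 1 ≤ sq b2 (n + 1))
    (hκ : ∀ n, sq b2 n ≤ κ * sq b2 (n + 1)) : False := by
  have hκ' : ∀ n, sq b2 n < κ * sq b2 (n + 1) := by
    intro n
    have h0 := hκ (n + 1)
    have h1 := hall n
    have h2 : 1 ≤ sq b2 (n + 2) := hall (n + 1)
    have e : sq b2 (n + 1 + 1) = sq b2 (n + 2) := rfl
    rw [e] at h0
    have h3 := cheb_id (b := b2) (sq_zero b2) (sq_one b2) (sq_rec b2) n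
    have h4 : sq b2 (n + 2) * sq b2 n < sq b2 (n + 2) * (κ * sq b2 (n + 1)) := by
      have h5 : sq b2 (n + 1) * sq b2 (n + 1) ≤ κ * sq b2 (n + 2) * sq b2 (n + 1) :=
        mul_le_mul_of_nonneg_right h0 (by linarith)
      nlinarith
    exact lt_of_mul_lt_mul_left h4 (by linarith)
  have hw : ∀ k, 1 ≤ fw b1 b2 bO x1 x2 g (k + 1) := fun k => C.one (hκ' k)
  have hb10 := C.h.b1n
  have hbO0 := C.h.bOn
  have hfb : ∀ k, 0 ≤ fb b1 bO k := by
    intro k
    unfold fb
    split_ifs <;> assumption
  have step : ∀ k, fw b1 b2 bO x1 x2 g (k + 1) + fb b1 bO (k + 1) < fw b1 b2 bO x1 x2 g k := by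
    intro k
    have h1 := C.diff_pos (k := k) (by linarith [hall k]) (hκ' k)
    have h2 := fw_succ b1 b2 bO x1 x2 g k
    have h3 : 1 * fw b1 b2 bO x1 x2 g (k + 1) ≤ b2 * fw b1 b2 bO x1 x2 g (k + 1) :=
      mul_le_mul_of_nonneg_right hb2 (by linarith [hw k])
    have h4 : fb b1 bO (k + 1) * 1 ≤ fb b1 bO (k + 1) * x1 :=
      mul_le_mul_of_nonneg_left C.hx1 (hfb _)
    linarith
  have hsum : ∀ k, 1 / 2 ≤ fb b1 bO (k + 1) + fb b1 bO (k + 2) := by
    intro k
    rw [fb_add]
    have hbp := C.b_pos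
    rcases Nat.mod_two_eq_zero_or_one k with hk | hk
    · rw [fb_even b1 bO hk, fb_odd b1 bO (by omega : (k + 1) % 2 = 1)]
      rcases hbp with h | h <;> linarith
    · rw [fb_odd b1 bO hk, fb_even b1 bO (by omega : (k + 1) % 2 = 0)]
      rcases hbp with h | h <;> linarith
  have hdec : ∀ k : ℕ, fw b1 b2 bO x1 x2 g (2 * k) ≤ x2 - k / 2 := by
    intro k
    induction k with
    | zero =>
      have : fw b1 b2 bO x1 x2 g (2 * 0) = x2 := rfl
      rw [this]
      simp
    | succ k ih =>
      have h1 := step (2 * k)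
      have h2 := step (2 * k + 1)
      have h3 := hsum (2 * k)
      have e1 : 2 * (k + 1) = 2 * k + 1 + 1 := by ring
      have e2 : 2 * k + 1 + 1 = 2 * k + 2 := rfl
      rw [e1]
      rw [e2] at h2
      rw [e2]
      push_cast
      linarith
  obtain ⟨N, hN⟩ := exists_nat_gt (2 * x2)
  have h1 := hdec N
  have h2 := fw_nn C.h C.hx (by linarith [C.hx1]) (2 * N)
  linarith

/-- **finite label at least 3, beyond the vertex** -/
theorem fin_beyond (hb2 : 1 / 2 ≤ b2) (hκ : 2 * b2 < κ) {ρ1 r2 : ℝ} (h1 : f ≤ ρ1)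
    (h2 : -b2 ≤ r2) : 1 < (g + x1 * ρ1 + x2 * r2) + (g' + y1 * ρ1 + y2 * r2) := by
  have hx1 := C.hx1
  have hx2 := C.hx2
  have hy1 := C.hy1
  have hy2 := C.hy2
  have hf := C.hf
  have he := C.e
  have he' := C.e'
  have hg1 := C.g_one
  rcases (C.h.z1 C.hy (by linarith [C.hy1])).2.2 with hy | hy
  · -- `x' = d1`
    have hf0 : f = 0 := by
      by_contra h
      have h1 : 0 < f := lt_of_le_of_ne C.hf (Ne.symm h)
      have h2 := C.e'
      rw [hy] at h2
      have h3 := mul_pos h1 (by linarith [C.hy1] : 0 < y1)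
      linarith [C.hg']
    have hg'0 : g' = 0 := by
      rw [he', hy, hf0]
      ring
    have hN' := C.h.n _ _ _ C.hy
    rw [hg'0, hy] at hN'
    have hy11 : y1 = 1 := by nlinarith
    have hBB := C.BB
    rw [hg'0, hy, hy11] at hBB
    have hl : 2 * b2 = 1 ∨ 2 ≤ (2 * b2) ^ 2 := by
      rcases C.h.swap.swap0.bOs with h | h | h
      · linarith
      · exact Or.inl h
      · exact Or.inr h
    have hgκ : g = κ * x2 := by
      rw [he, hf0]
      ring
    have key := beyond (b1 := b1) (b2 := b2) (bO := bO) (g := g) (x1 := x1) (x2 := x2)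
      (by rcases C.h.b1z with h | h
          · left; linarith
          · right; linarith)
      (by rcases C.h.bOz with h | h
          · left; linarith
          · right; linarith) hb2 hl (C.h.n _ _ _ C.hx) hx1 hx2 (by linarith) C.obt
      (by rw [hgκ]; exact mul_lt_mul_of_pos_right hκ (by linarith))
      (by
        intro hO h21
        have h3 := C.one (k := 1) (by
          have e1 : sq b2 (1 + 1) = 2 * b2 := sq_two' b2
          rw [e1, sq_one, h21]
          linarith)
        have e1 : fw b1 b2 bO x1 x2 g (1 + 1) = 2 * b2 * g + 2 * bO * x1 - x2 := by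
          have e1 := fw_succ b1 b2 bO x1 x2 g 0
          have e2 : (0 : ℕ) + 2 = 1 + 1 := rfl
          have e3 : (0 : ℕ) + 1 = 1 := rfl
          rw [e2, e3, fb_one] at e1
          exact e1
        rw [e1, hO, h21] at h3
        linarith)
    have h3 : 0 ≤ x1 * ρ1 := mul_nonneg (by linarith) (by linarith)
    have h4 : 0 ≤ y1 * ρ1 := mul_nonneg (by linarith) (by linarith)
    have h5 := mul_le_mul_of_nonneg_left h2 (by linarith : 0 ≤ x2)
    rw [hy, hg'0]
    linarith
  · have h3 := mul_le_mul_of_nonneg_left h1 (by linarith : 0 ≤ x1 + y1)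
    have h4 := mul_le_mul_of_nonneg_left h2 (by linarith : 0 ≤ x2 + y2)
    have h5 : (x2 + y2) * (2 * b2) < (x2 + y2) * κ := mul_lt_mul_of_pos_left hκ (by linarith)
    have h6 := mul_nonneg hf (by linarith : 0 ≤ x1)
    have h7 : κ * 1 ≤ κ * y2 := mul_le_mul_of_nonneg_left hy C.κ0.le
    have h8 := mul_nonneg hf (by linarith : 0 ≤ y1)
    nlinarith

end Cfg

end Pool.Agent.Helper80.DY
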